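import Pool.Agent.R685.SJ.Stm

set_option autoImplicit false
set_option linter.unusedSectionVars false

/-!
Piece BIG of the project SJ: the bihomogeneous components of `G ⊗ G`.
-/

namespace Pool.Agent.R685.SJ

open Pool.Agent.H163R3 Pool.Agent.R685 TensorProduct

universe u

namespace BigAux

variable {F : Type u} [Field F] {G : Type u} [Ring G] [Algebra F G] {e : ℕ → G}

/-- the sign of an exchange -/
noncomputable def sg (F : Type u) [Field F] (a c : ZMod 2) : F := if a = 1 ∧ c = 1 then -1 else 1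

theorem one_mem_Gw : (1 : G) ∈ Gw F e 0 0 :=
  Submodule.subset_span ⟨[], le_rfl, by simp, by simp [gw]⟩

theorem zmod2_cases (a : ZMod 2) : a = 0 ∨ a = 1 := by
  revert a; decide

theorem Gw_comm (he : IsGrassmann F e) {a c : ZMod 2} {g g' : G} (hg : g ∈ Gw F e 0 a)
    (hg' : g' ∈ Gw F e 0 c) : g * g' = sg F a c • (g' * g) := by
  rcases zmod2_cases a with rfl | rfl
  · have : sg F 0 c = 1 := if_neg (fun h => absurd h.1 (by decide))
    rw [this, one_smul, Gw0_central he hg]
  · rcases zmod2_cases c with rfl | rfl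
    · have : sg F 1 0 = 1 := if_neg (fun h => absurd h.2 (by decide))
      rw [this, one_smul, Gw0_central he hg']
    · have : sg F 1 1 = -1 := if_pos ⟨rfl, rfl⟩
      rw [this, neg_one_smul, Gw1_anti he hg hg']

theorem Gw_sup (he : IsGrassmann F e) (g : G) :
    ∃ g0 ∈ Gw F e 0 0, ∃ g1 ∈ Gw F e 0 1, g = g0 + g1 := by
  have hu : g ∈ Algebra.adjoin F (Set.range e) := by rw [he.gen]; trivial
  induction hu using Algebra.adjoin_induction with
  | mem x hx =>
    obtain ⟨i, rfl⟩ := hx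
    exact ⟨0, Submodule.zero_mem _, e i,
      Submodule.subset_span ⟨[i], Nat.zero_le _, by simp, by simp [gw]⟩, (zero_add _).symm⟩
  | algebraMap r =>
    refine ⟨algebraMap F G r, ?_, 0, Submodule.zero_mem _, (add_zero _).symm⟩
    rw [Algebra.algebraMap_eq_smul_one]
    exact Submodule.smul_mem _ _ one_mem_Gw
  | mul a b _ _ ha hb =>
    obtain ⟨a0, h1, a1, h2, rfl⟩ := ha
    obtain ⟨b0, h3, b1, h4, rfl⟩ := hb
    have e1 : (1 : ZMod 2) + 1 = 0 := by decide
    refine ⟨a0 * b0 + a1 * b1, ?_, a0 * b1 + a1 * b0, ?_, by noncomm_ring⟩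
    · have k1 := Gw_mul (F := F) e h1 h3
      have k2 := Gw_mul (F := F) e h2 h4
      rw [add_zero] at k1
      rw [e1] at k2
      exact Submodule.add_mem _ k1 k2
    · have k1 := Gw_mul (F := F) e h1 h4
      have k2 := Gw_mul (F := F) e h2 h3
      rw [zero_add] at k1
      rw [add_zero] at k2
      exact Submodule.add_mem _ k1 k2
  | add a b _ _ ha hb =>
    obtain ⟨a0, h1, a1, h2, rfl⟩ := ha
    obtain ⟨b0, h3, b1, h4, rfl⟩ := hb
    exact ⟨a0 + b0, Submodule.add_mem _ h1 h3, a1 + b1, Submodule.add_mem _ h2 h4, by abel⟩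

theorem BG_mul {a b c d : ZMod 2} {x y : G ⊗[F] G} (hx : x ∈ BG e a b) (hy : y ∈ BG e c d) :
    x * y ∈ BG e (a + c) (b + d) := by
  have h1 := Submodule.mul_mem_mul hx hy
  unfold BG at h1
  rw [Submodule.span_mul_span] at h1
  refine Submodule.span_mono ?_ h1
  rintro _ ⟨_, ⟨g, hg, g', hg', rfl⟩, _, ⟨h, hh, h', hh', rfl⟩, rfl⟩
  exact ⟨g * h, Gw_mul F e hg hh, g' * h', Gw_mul F e hg' hh',
    (Algebra.TensorProduct.tmul_mul_tmul _ _ _ _).symm⟩

theorem BG_comm (he : IsGrassmann F e) {a b c d : ZMod 2} {x y : G ⊗[F] G}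
    (hx : x ∈ BG e a b) (hy : y ∈ BG e c d) :
    x * y = (sg F a c * sg F b d) • (y * x) := by
  unfold BG at hx
  induction hx using Submodule.span_induction with
  | zero => simp
  | add p q _ _ h1 h2 => rw [add_mul, mul_add, h1, h2, smul_add]
  | smul k p _ h => rw [smul_mul_assoc, mul_smul_comm, h, smul_comm]
  | mem x hx =>
    obtain ⟨g, hg, g', hg', rfl⟩ := hx
    unfold BG at hy
    induction hy using Submodule.span_induction with
    | zero => simp
    | add p q _ _ h1 h2 => rw [add_mul, mul_add, h1, h2, smul_add]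
    | smul k p _ h => rw [smul_mul_assoc, mul_smul_comm, h, smul_comm]
    | mem y hy =>
      obtain ⟨h, hh, h', hh', rfl⟩ := hy
      rw [Algebra.TensorProduct.tmul_mul_tmul, Algebra.TensorProduct.tmul_mul_tmul,
        Gw_comm he hg hh, Gw_comm he hg' hh', TensorProduct.smul_tmul_smul]

theorem sg_self : sg F 0 0 = 1 := if_neg (fun h => absurd h.1 (by decide))
theorem sg_one : sg F 1 1 = -1 := if_pos ⟨rfl, rfl⟩
theorem sg_01 : sg F 0 1 = 1 := if_neg (fun h => absurd h.1 (by decide))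
theorem sg_10 : sg F 1 0 = 1 := if_neg (fun h => absurd h.2 (by decide))

theorem sq_zero [CharZero F] (he : IsGrassmann F e) {a b : ZMod 2}
    (hs : sg F a a * sg F b b = -1) {o : G ⊗[F] G} (ho : o ∈ BG e a b) : o * o = 0 := by
  have h := BG_comm he ho ho
  rw [hs, neg_one_smul] at h
  have h2 : (2 : F) • (o * o) = 0 := by
    rw [two_smul]
    nth_rw 2 [h]
    exact add_neg_cancel _
  exact (smul_eq_zero.mp h2).resolve_left two_ne_zero

theorem oro_zero [CharZero F] (he : IsGrassmann F e) {a b : ZMod 2}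
    (hs : sg F a a * sg F b b = -1) {o : G ⊗[F] G} (ho : o ∈ BG e a b) (r : G ⊗[F] G) :
    o * r * o = 0 := by
  have key : ∀ (c d : ZMod 2) (g g' : G), g ∈ Gw F e 0 c → g' ∈ Gw F e 0 d →
      o * (g ⊗ₜ[F] g') * o = 0 := by
    intro c d g g' hg hg'
    have hr : g ⊗ₜ[F] g' ∈ BG e c d := Submodule.subset_span ⟨g, hg, g', hg', rfl⟩
    rw [BG_comm he ho hr, smul_mul_assoc, mul_assoc, sq_zero he hs ho, mul_zero, smul_zero]
  induction r using TensorProduct.induction_on with
  | zero => simp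
  | add p q h1 h2 => rw [mul_add, add_mul, h1, h2, add_zero]
  | tmul g g' =>
    obtain ⟨g0, h0, g1, h1, rfl⟩ := Gw_sup he g
    obtain ⟨k0, l0, k1, l1, rfl⟩ := Gw_sup he g'
    rw [TensorProduct.add_tmul, TensorProduct.tmul_add, TensorProduct.tmul_add]
    simp only [mul_add, add_mul, key _ _ _ _ h0 l0, key _ _ _ _ h0 l1, key _ _ _ _ h1 l0,
      key _ _ _ _ h1 l1, add_zero]

end BigAux

open BigAux in
theorem t_BIG : S_BIG.{u} := by
  intro F _ _ G _ _ e he
  refine ⟨?_, ?_, ?_⟩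
  · have e1 : (1 : ZMod 2) + 1 = 0 := by decide
    have hone : (1 : G ⊗[F] G) ∈ BG e 0 0 ⊔ BG e 1 1 := by
      refine Submodule.mem_sup_left (Submodule.subset_span ⟨1, one_mem_Gw, 1, one_mem_Gw, rfl⟩)
    have hmul : ∀ x y : G ⊗[F] G, x ∈ BG e 0 0 ⊔ BG e 1 1 → y ∈ BG e 0 0 ⊔ BG e 1 1 →
        x * y ∈ BG e 0 0 ⊔ BG e 1 1 := by
      intro x y hx hy
      obtain ⟨x0, h0, x1, h1, rfl⟩ := Submodule.mem_sup.1 hx
      obtain ⟨y0, k0, y1, k1, rfl⟩ := Submodule.mem_sup.1 hy
      have m1 := BG_mul h0 k0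
      have m2 := BG_mul h0 k1
      have m3 := BG_mul h1 k0
      have m4 := BG_mul h1 k1
      rw [add_zero] at m1 m3
      rw [zero_add] at m2
      rw [e1] at m4
      have : (x0 + x1) * (y0 + y1) = (x0 * y0 + x1 * y1) + (x0 * y1 + x1 * y0) := by
        noncomm_ring
      rw [this]
      exact Submodule.add_mem_sup (Submodule.add_mem _ m1 m4) (Submodule.add_mem _ m2 m3)
    refine ⟨(BG e 0 0 ⊔ BG e 1 1).toSubalgebra hone hmul, ?_, ?_⟩
    · intro x hx y hy
      rw [Submodule.mem_toSubalgebra] at hx hy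
      obtain ⟨x0, h0, x1, h1, rfl⟩ := Submodule.mem_sup.1 hx
      obtain ⟨y0, k0, y1, k1, rfl⟩ := Submodule.mem_sup.1 hy
      have m1 := BG_comm he h0 k0
      have m2 := BG_comm he h0 k1
      have m3 := BG_comm he h1 k0
      have m4 := BG_comm he h1 k1
      rw [sg_self, one_mul, one_smul] at m1
      rw [sg_01, one_mul, one_smul] at m2
      rw [sg_10, one_mul, one_smul] at m3
      rw [sg_one, neg_mul_neg, one_mul, one_smul] at m4
      rw [add_mul, mul_add, mul_add, m1, m2, m3, m4, add_mul, mul_add, mul_add]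
      abel
    · exact Submodule.toSubalgebra_toSubmodule _ _ _
  · intro o ho r
    exact oro_zero he (by rw [sg_self, sg_one, one_mul]) ho r
  · intro o ho r
    exact oro_zero he (by rw [sg_self, sg_one, mul_one]) ho r

end Pool.Agent.R685.SJ
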