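import Pool.Agent.R685.SJ.Stm

set_option autoImplicit false
set_option linter.unusedSectionVars false

namespace Pool.Agent.R685.SJ

open Pool.Agent.H163R3 Pool.Agent.R685

universe u

namespace Det

section
variable {F : Type u} [Field F] {K : Type u} [Ring K] [Algebra F K] {R : Type u} [Ring R]
  [Algebra F R]

/-- coordinatewise map of vectors -/
noncomputable def mv (ι : K →ₐ[F] R) (u : ℕ →₀ K) : ℕ →₀ R := u.mapRange ι (map_zero ι)

@[simp] theorem mv_apply (ι : K →ₐ[F] R) (u : ℕ →₀ K) (c : ℕ) : mv ι u c = ι (u c) := by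
  simp [mv]

theorem ff_mv (ι : K →ₐ[F] R) (u v : ℕ →₀ K) : ff (mv ι u) (mv ι v) = ι (ff u v) := by
  unfold ff
  have h1 : (mv ι u).sum (fun c r => r * (mv ι v) c) = u.sum fun c r => ι r * (mv ι v) c := by
    unfold mv
    exact Finsupp.sum_mapRange_index (fun _ => zero_mul _)
  rw [h1]
  unfold Finsupp.sum
  rw [map_sum]
  refine Finset.sum_congr rfl fun c _ => ?_
  simp only [mv_apply, map_mul]

/-- the map of Jordan algebras -/
noncomputable def jm (ι : K →ₐ[F] R) : JR K →ₙₐ[F] JR R where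
  toFun p := jp (ι (js p)) (mv ι (jv p))
  map_smul' c p := by
    apply JR_ext
    · simp
    · ext i; simp
  map_zero' := by
    apply JR_ext
    · simp
    · ext i; simp
  map_add' p q := by
    apply JR_ext
    · simp
    · ext i; simp
  map_mul' p q := by
    apply JR_ext
    · simp only [JR_mul, js_jp, jv_jp, ff_mv, map_add, map_mul]
    · ext i
      simp [JR_mul]

theorem js_jm (ι : K →ₐ[F] R) (p : JR K) : js (jm ι p) = ι (js p) := rfl
theorem jv_jm (ι : K →ₐ[F] R) (p : JR K) (c : ℕ) : jv (jm ι p) c = ι (jv p c) := by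
  change mv ι (jv p) c = _
  simp

end

theorem closure_left {R : Type u} [Ring R] {L : ℕ} (o : Fin L → R) (x t : R)
    (ht : t ∈ AddSubgroup.closure {t | ∃ (l : Fin L) (r r' : R), r * o l * r' = t}) :
    x * t ∈ AddSubgroup.closure {t | ∃ (l : Fin L) (r r' : R), r * o l * r' = t} := by
  induction ht using AddSubgroup.closure_induction with
  | mem y hy =>
    obtain ⟨l, r, r', rfl⟩ := hy
    apply AddSubgroup.subset_closure
    exact ⟨l, x * r, r', by simp only [mul_assoc]⟩
  | zero => rw [mul_zero]; exact AddSubgroup.zero_mem _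
  | add y z _ _ h1 h2 => rw [mul_add]; exact AddSubgroup.add_mem _ h1 h2
  | neg y _ h1 => rw [mul_neg]; exact AddSubgroup.neg_mem _ h1

theorem det_aux (hP : S_PIG.{u}) (hE : S_EVJ.{u}) (hR : S_RANK.{u}) (F : Type u) [Field F]
    (K : Type u) [CommRing K] [Algebra F K] (R : Type u) [Ring R] [Algebra F R] (ι : K →ₐ[F] R)
    (hinj : Function.Injective ι) (N : ℕ) (φ' : Fr F →ₙₐ[F] JR K) (odd : Fin N → Prop)
    (κ a b : ℕ → Fin N → R) (v : Fin N → (ℕ →₀ R))
    (h3 : ∀ k c, ι (jv (φ' (X F k)) c) = ∑ i, κ k i * v i c)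
    (h4 : ∀ k i, ¬ odd i → ∃ t, ι t = κ k i)
    (h5 : ∀ i, ¬ odd i → ∃ w : ℕ →₀ K, ∀ c, ι (w c) = v i c)
    (h6 : ∀ k i, odd i → κ k i = a k i + b k i)
    (h7 : ∀ k i, odd i → ∀ r, a k i * r * a k i = 0)
    (h8 : ∀ k i, odd i → ∀ r, b k i * r * b k i = 0) :
    φ' (tJ F (N + 1) (2 * ((N + 1) * N) + 1)) = 0 := by
  classical
  obtain ⟨lam, e1, e2⟩ := hE F K (N + 1) (2 * ((N + 1) * N) + 1) φ'
  set D : K := Matrix.det (Matrix.of fun k i : Fin (N + 1) =>
        lam i (jv (φ' (X F (2 * (k : ℕ) + 3))))) with hD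
  -- coefficients
  have h4' : ∀ k i, ∃ t : K, (¬ odd i → ι t = κ k i) ∧ (odd i → t = 0) := by
    intro k i
    by_cases h : odd i
    · exact ⟨0, fun h' => absurd h h', fun _ => rfl⟩
    · obtain ⟨t, ht⟩ := h4 k i h
      exact ⟨t, fun _ => ht, fun h' => absurd h' h⟩
  have h5' : ∀ i, ∃ w : ℕ →₀ K, (¬ odd i → ∀ c, ι (w c) = v i c) := by
    intro i
    by_cases h : odd i
    · exact ⟨0, fun h' => absurd h h'⟩
    · obtain ⟨t, ht⟩ := h5 i h
      exact ⟨t, fun _ => ht⟩
  choose kp hk1 hk2 using h4'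
  choose w hw using h5'
  set x : Fin (N + 1) → (ℕ →₀ K) := fun k => jv (φ' (X F (2 * (k : ℕ) + 3))) with hx
  set y : Fin (N + 1) → (ℕ →₀ K) := fun k => x k - ∑ i, kp (2 * (k : ℕ) + 3) i • w i with hy
  have hmem := hR K N lam x y w (fun k i => kp (2 * (k : ℕ) + 3) i) (fun k => by
    simp only [hy]
    abel)
  have hDmem : D ∈ Ideal.span {t : K | ∃ k c, y k c = t} := hmem
  -- the odd elements
  set eq1 : Fin (2 * ((N + 1) * N)) ≃ Fin 2 × (Fin ((N + 1) * N)) := finProdFinEquiv.symm with heq1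
  set eq2 : Fin ((N + 1) * N) ≃ Fin (N + 1) × Fin N := finProdFinEquiv.symm with heq2
  set o : Fin (2 * ((N + 1) * N)) → R := fun l =>
    if odd (eq2 (eq1 l).2).2 then
      (if (eq1 l).1 = 0 then a (2 * ((eq2 (eq1 l).2).1 : ℕ) + 3) (eq2 (eq1 l).2).2
        else b (2 * ((eq2 (eq1 l).2).1 : ℕ) + 3) (eq2 (eq1 l).2).2)
    else 0 with ho
  have hoz : ∀ l r, o l * r * o l = 0 := by
    intro l r
    simp only [ho]
    split_ifs with c1 c2
    · exact h7 _ _ c1 r
    · exact h8 _ _ c1 r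
    · simp
  have hoa : ∀ (k : Fin (N + 1)) (i : Fin N), odd i → ∃ l, o l = a (2 * (k : ℕ) + 3) i := by
    intro k i hi
    refine ⟨eq1.symm (0, eq2.symm (k, i)), ?_⟩
    simp only [ho, Equiv.apply_symm_apply]
    rw [if_pos hi]
    simp
  have hob : ∀ (k : Fin (N + 1)) (i : Fin N), odd i → ∃ l, o l = b (2 * (k : ℕ) + 3) i := by
    intro k i hi
    refine ⟨eq1.symm (1, eq2.symm (k, i)), ?_⟩
    simp only [ho, Equiv.apply_symm_apply]
    rw [if_pos hi]
    simp
  set T : Set R := {t | ∃ (l : Fin (2 * ((N + 1) * N))) (r r' : R), r * o l * r' = t} with hT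
  have hyT : ∀ k c, ι (y k c) ∈ AddSubgroup.closure T := by
    intro k c
    have c1 : ι (y k c) = ∑ i, (κ (2 * (k : ℕ) + 3) i * v i c -
        ι (kp (2 * (k : ℕ) + 3) i) * ι (w i c)) := by
      have c2 : y k c = x k c - ∑ i, kp (2 * (k : ℕ) + 3) i * w i c := by
        simp only [hy]
        rw [Finsupp.sub_apply, Finsupp.finsetSum_apply]
        rfl
      rw [c2, map_sub, map_sum, Finset.sum_sub_distrib]
      simp only [hx, map_mul]
      rw [h3]
    rw [c1]
    apply AddSubgroup.sum_mem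
    intro i _
    by_cases hi : odd i
    · rw [hk2 _ _ hi, map_zero, zero_mul, sub_zero, h6 _ _ hi, add_mul]
      apply AddSubgroup.add_mem
      · obtain ⟨l, hl⟩ := hoa k i hi
        apply AddSubgroup.subset_closure
        exact ⟨l, 1, v i c, by rw [hl, one_mul]⟩
      · obtain ⟨l, hl⟩ := hob k i hi
        apply AddSubgroup.subset_closure
        exact ⟨l, 1, v i c, by rw [hl, one_mul]⟩
    · rw [hk1 _ _ hi, hw i hi c, sub_self]
      exact AddSubgroup.zero_mem _
  have hDT : ι D ∈ AddSubgroup.closure T := by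
    refine Submodule.span_induction (p := fun t _ => ι t ∈ AddSubgroup.closure T) ?_ ?_ ?_ ?_ hDmem
    · rintro t ⟨k, c, rfl⟩
      exact hyT k c
    · rw [map_zero]
      exact AddSubgroup.zero_mem _
    · intro s t _ _ hs ht
      rw [map_add]
      exact AddSubgroup.add_mem _ hs ht
    · intro s t _ ht
      rw [smul_eq_mul, map_mul]
      exact closure_left o (ι s) (ι t) ht
  have hpow : ι (D ^ (2 * ((N + 1) * N) + 1)) = 0 := by
    have c1 := hP R (2 * ((N + 1) * N)) o hoz (fun _ => ι D) (fun _ => hDT)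
    rw [List.ofFn_const, List.prod_replicate] at c1
    rw [map_pow]
    exact c1
  have hD0 : D ^ (2 * ((N + 1) * N) + 1) = 0 := hinj (by rw [hpow, map_zero])
  apply JR_ext
  · rw [e1, hD0, zero_mul]
    rfl
  · rw [e2, hD0, zero_smul]
    rfl

/-- the commutative ring structure -/
@[reducible]
noncomputable def crK {F : Type u} [Field F] {R : Type u} [Ring R] [Algebra F R]
    (K : Subalgebra F R) (hK : ∀ a ∈ K, ∀ b ∈ K, a * b = b * a) : CommRing K :=
  { (inferInstance : Ring K) with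
    mul_comm := fun a b => Subtype.ext (hK a a.2 b b.2) }

end Det

open Det in
theorem t_DET (hP : S_PIG.{u}) (hE : S_EVJ.{u}) (hR : S_RANK.{u}) : S_DET.{u} := by
  classical
  intro F _ R _ _ K hK N φ odd κ a b v h1 h2 h3 h4 h5 h6 h7 h8
  -- lift to K
  let vec : ∀ k, ℕ →₀ K := fun k =>
    { support := (jv (φ (X F k))).support
      toFun := fun c => ⟨jv (φ (X F k)) c, h2 k c⟩
      mem_support_toFun := by
        intro c
        rw [Finsupp.mem_support_iff, ne_eq, ne_eq, ← Subtype.coe_inj]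
        rfl }
  let φ' : Fr F →ₙₐ[F] JR K :=
    FreeNonUnitalNonAssocAlgebra.lift F (fun k => jp (⟨js (φ (X F k)), h1 k⟩ : K) (vec k))
  have hφ' : ∀ k, φ' (X F k) = jp (⟨js (φ (X F k)), h1 k⟩ : K) (vec k) := fun k =>
    FreeNonUnitalNonAssocAlgebra.lift_of_apply F _ k
  have hcomp : (jm K.val).comp φ' = φ := by
    apply FreeNonUnitalNonAssocAlgebra.hom_ext
    intro k
    change jm K.val (φ' (X F k)) = φ (X F k)
    rw [hφ']
    apply JR_ext
    · rfl
    · ext c
      rw [jv_jm]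
      rfl
  have hmain : φ' (tJ F (N + 1) (2 * ((N + 1) * N) + 1)) = 0 := by
    refine @det_aux hP hE hR F _ K (crK K hK) (inferInstance : Algebra F K) R _ _ K.val
      Subtype.val_injective N φ' odd κ a b v ?_ ?_ ?_ h6 h7 h8
    · intro k c
      have : K.val (jv (φ' (X F k)) c) = jv (φ (X F k)) c := by
        rw [hφ']
        rfl
      exact this.trans (h3 k c)
    · intro k i hi
      exact ⟨⟨κ k i, h4 k i hi⟩, rfl⟩
    · intro i hi
      refine ⟨{ support := (v i).support
                toFun := fun c => ⟨v i c, h5 i c hi⟩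
                mem_support_toFun := ?_ }, fun c => rfl⟩
      intro c
      rw [Finsupp.mem_support_iff, ne_eq, ne_eq, ← Subtype.coe_inj]
      rfl
  rw [← hcomp]
  change jm K.val (φ' _) = 0
  rw [hmain, map_zero]

end Pool.Agent.R685.SJ
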