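import Pool.Agent.R685.LieSup3

set_option autoImplicit false
set_option linter.unusedSectionVars false

/-!
A variety of Jordan algebras (generated by the Jordan algebra of a nondegenerate form on a space
of infinite dimension) without finite basic superrank: definitions and statements of the pieces.
-/

namespace Pool.Agent.R685.SJ

open Pool.Agent.H163R3 Pool.Agent.R685 TensorProduct

universe u

/-! ### the algebra -/

/-- `R ⊕ R^(ℕ)` with the product `(a, u) (b, v) = (a b + ∑ u_c v_c, a v + u b)` -/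
def JR (R : Type u) [Ring R] : Type u := R × (ℕ →₀ R)

section JR
variable {R : Type u} [Ring R]

noncomputable instance : AddCommGroup (JR R) := inferInstanceAs (AddCommGroup (R × (ℕ →₀ R)))

/-- pairs -/
def jp (a : R) (u : ℕ →₀ R) : JR R := (a, u)
/-- scalar part -/
def js (p : JR R) : R := p.1
/-- vector part -/
def jv (p : JR R) : ℕ →₀ R := p.2

theorem JR_ext {p q : JR R} (h1 : js p = js q) (h2 : jv p = jv q) : p = q := Prod.ext h1 h2

@[simp] theorem js_jp (a : R) (u : ℕ →₀ R) : js (jp a u) = a := rfl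
@[simp] theorem jv_jp (a : R) (u : ℕ →₀ R) : jv (jp a u) = u := rfl
@[simp] theorem js_add (p q : JR R) : js (p + q) = js p + js q := rfl
@[simp] theorem jv_add (p q : JR R) : jv (p + q) = jv p + jv q := rfl
@[simp] theorem js_zero : js (0 : JR R) = 0 := rfl
@[simp] theorem jv_zero : jv (0 : JR R) = 0 := rfl

/-- the form -/
noncomputable def ff (u v : ℕ →₀ R) : R := u.sum fun c r => r * v c

theorem ff_add (u u' v : ℕ →₀ R) : ff (u + u') v = ff u v + ff u' v := by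
  unfold ff
  exact Finsupp.sum_add_index' (fun _ => zero_mul _) (fun _ _ _ => add_mul _ _ _)

theorem ff_add' (u v v' : ℕ →₀ R) : ff u (v + v') = ff u v + ff u v' := by
  unfold ff
  simp only [Finsupp.add_apply, mul_add]
  exact Finsupp.sum_add

@[simp] theorem ff_zero (v : ℕ →₀ R) : ff 0 v = 0 := by simp [ff]
@[simp] theorem ff_zero' (u : ℕ →₀ R) : ff u 0 = 0 := by simp [ff]

/-- right multiplication of a vector by a scalar -/
noncomputable def rs (u : ℕ →₀ R) (b : R) : ℕ →₀ R := u.mapRange (· * b) (zero_mul b)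

@[simp] theorem rs_apply (u : ℕ →₀ R) (b : R) (c : ℕ) : rs u b c = u c * b := by simp [rs]

noncomputable instance : Mul (JR R) :=
  ⟨fun p q => jp (js p * js q + ff (jv p) (jv q)) (js p • jv q + rs (jv p) (js q))⟩

theorem JR_mul (p q : JR R) :
    p * q = jp (js p * js q + ff (jv p) (jv q)) (js p • jv q + rs (jv p) (js q)) := rfl

noncomputable instance : NonUnitalNonAssocRing (JR R) where
  left_distrib p q r := by
    apply JR_ext
    · simp only [JR_mul, js_jp, js_add, jv_add, mul_add, ff_add']; abel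
    · simp only [JR_mul, jv_jp, js_add, jv_add, smul_add]
      ext c; simp [mul_add]; abel
  right_distrib p q r := by
    apply JR_ext
    · simp only [JR_mul, js_jp, js_add, jv_add, add_mul, ff_add]; abel
    · simp only [JR_mul, jv_jp, js_add, jv_add, add_smul]
      ext c; simp [add_mul]; abel
  zero_mul p := by
    apply JR_ext
    · simp [JR_mul]
    · ext c; simp [JR_mul]
  mul_zero p := by
    apply JR_ext
    · simp [JR_mul]
    · ext c; simp [JR_mul]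

variable {F : Type u} [Field F] [Algebra F R]

noncomputable instance : Module F (JR R) := inferInstanceAs (Module F (R × (ℕ →₀ R)))

@[simp] theorem js_smul (c : F) (p : JR R) : js (c • p) = c • js p := rfl
@[simp] theorem jv_smul (c : F) (p : JR R) : jv (c • p) = c • jv p := rfl

theorem ff_smul (c : F) (u v : ℕ →₀ R) : ff (c • u) v = c • ff u v := by
  unfold ff
  rw [Finsupp.sum_smul_index' (fun _ => zero_mul _), Finsupp.smul_sum]
  simp only [smul_mul_assoc]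

theorem ff_smul' (c : F) (u v : ℕ →₀ R) : ff u (c • v) = c • ff u v := by
  unfold ff
  rw [Finsupp.smul_sum]
  simp only [Finsupp.smul_apply, mul_smul_comm]

instance : IsScalarTower F (JR R) (JR R) := ⟨fun c p q => by
  show (c • p) * q = c • (p * q)
  apply JR_ext
  · simp only [JR_mul, js_jp, js_smul, jv_smul, smul_mul_assoc, ff_smul, smul_add]
  · simp only [JR_mul, jv_jp, js_smul, jv_smul]
    ext i; simp⟩

instance : SMulCommClass F (JR R) (JR R) := ⟨fun c p q => by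
  show c • (p * q) = p * (c • q)
  apply JR_ext
  · simp only [JR_mul, js_jp, js_smul, jv_smul, mul_smul_comm, ff_smul', smul_add]
  · simp only [JR_mul, jv_jp, js_smul, jv_smul]
    ext i; simp⟩

end JR

/-! ### the test polynomial -/

/-- associator -/
def asc {B : Type u} [NonUnitalNonAssocRing B] (x y z : B) : B := (x * y) * z - x * (y * z)

/-- the test polynomial: a power of the determinant of the operators `R_{e_k e'_i}` applied to
the variable `0`, where `e_k = (x_{2k+3}, x_1, x_2)`, `e'_i = (x_{2i+4}, x_1, x_2)` -/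
noncomputable def tJ (F : Type u) [Field F] (h C : ℕ) : Fr F :=
  ((dt h fun k i : Fin h => Ro (F := F) (asc (X F (2 * (k : ℕ) + 3)) (X F 1) (X F 2) *
    asc (X F (2 * (i : ℕ) + 4)) (X F 1) (X F 2))) ^ C) (X F 0)

/-- the Jordan identities -/
def JordId (F : Type u) [Field F] : Set (Fr F) :=
  {X F 0 * X F 1 - X F 1 * X F 0,
    ((X F 0 * X F 0) * X F 1) * X F 0 - (X F 0 * X F 0) * (X F 1 * X F 0)}

/-- JORD: `JR F` is a Jordan algebra -/
def S_JORD : Prop := ∀ (F : Type u) [Field F], InVar F (JordId F) (JR F)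

/-- NZ: the test polynomials are not identities of `JR F` -/
def S_NZ : Prop := ∀ (F : Type u) [Field F] (h C : ℕ), ¬ Sat F (JR F) (tJ F h C)

/-- PIG: nilpotency -/
def S_PIG : Prop := ∀ (R : Type u) [Ring R] (L : ℕ) (o : Fin L → R),
  (∀ l r, o l * r * o l = 0) → ∀ q : Fin (L + 1) → R,
    (∀ j, q j ∈ AddSubgroup.closure {t | ∃ (l : Fin L) (r r' : R), r * o l * r' = t}) →
    (List.ofFn q).prod = 0

/-- EVJ: value of the test polynomial over a commutative ring -/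
def S_EVJ : Prop := ∀ (F : Type u) [Field F] (K : Type u) [CommRing K] [Algebra F K] (h C : ℕ)
  (φ : Fr F →ₙₐ[F] JR K), ∃ lam : Fin h → (ℕ →₀ K) →ₗ[K] K,
    js (φ (tJ F h C)) = (Matrix.det (Matrix.of fun k i : Fin h =>
        lam i (jv (φ (X F (2 * (k : ℕ) + 3)))))) ^ C * js (φ (X F 0)) ∧
    jv (φ (tJ F h C)) = (Matrix.det (Matrix.of fun k i : Fin h =>
        lam i (jv (φ (X F (2 * (k : ℕ) + 3)))))) ^ C • jv (φ (X F 0))

/-- RANK: the determinant lies in the ideal generated by the coordinates of the `y k` -/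
def S_RANK : Prop := ∀ (K : Type u) [CommRing K] (N : ℕ) (lam : Fin (N + 1) → (ℕ →₀ K) →ₗ[K] K)
  (x y : Fin (N + 1) → (ℕ →₀ K)) (v : Fin N → (ℕ →₀ K)) (κ : Fin (N + 1) → Fin N → K),
  (∀ k, x k = (∑ i, κ k i • v i) + y k) →
  Matrix.det (Matrix.of fun k i : Fin (N + 1) => lam i (x k)) ∈
    Ideal.span {t : K | ∃ k c, y k c = t}

/-- DET: the test polynomial vanishes (uses PIG, EVJ, RANK) -/
def S_DET : Prop := ∀ (F : Type u) [Field F] (R : Type u) [Ring R] [Algebra F R]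
  (K : Subalgebra F R), (∀ a ∈ K, ∀ b ∈ K, a * b = b * a) →
  ∀ (N : ℕ) (φ : Fr F →ₙₐ[F] JR R) (odd : Fin N → Prop) (κ a b : ℕ → Fin N → R)
    (v : Fin N → (ℕ →₀ R)),
    (∀ k, js (φ (X F k)) ∈ K) → (∀ k c, jv (φ (X F k)) c ∈ K) →
    (∀ k c, jv (φ (X F k)) c = ∑ i, κ k i * v i c) →
    (∀ k i, ¬ odd i → κ k i ∈ K) → (∀ i c, ¬ odd i → v i c ∈ K) →
    (∀ k i, odd i → κ k i = a k i + b k i) →
    (∀ k i, odd i → ∀ r, a k i * r * a k i = 0) → (∀ k i, odd i → ∀ r, b k i * r * b k i = 0) →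
    φ (tJ F (N + 1) (2 * ((N + 1) * N) + 1)) = 0

/-! ### words -/

/-- value of a word -/
def wv {N : ℕ} {C : Type u} [Mul C] (φ : Fin N → C) : FreeMagma (Fin N) → C
  | .of i => φ i
  | .mul s t => wv φ s * wv φ t

/-- parity of a word -/
def wp {N : ℕ} (par : Fin N → ZMod 2) : FreeMagma (Fin N) → ZMod 2
  | .of i => par i
  | .mul s t => wp par s + wp par t

/-- the free algebra on `N` generators -/
abbrev PN (F : Type u) [Field F] (N : ℕ) : Type u := FreeNonUnitalNonAssocAlgebra F (Fin N)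

/-- `span {g ⊗ b : g ∈ W}` -/
def TB {F : Type u} [Field F] {G : Type u} [Ring G] [Algebra F G] (W : Submodule F G)
    (B : Type u) [AddCommGroup B] [Module F B] : Submodule F (G ⊗[F] B) :=
  Submodule.span F {t | ∃ g ∈ W, ∃ b : B, g ⊗ₜ[F] b = t}

/-- SUPA: identities pass from `G ⊗ B` to `G ⊗ B'` for `B'` in the variety generated by `B` -/
def S_SUPA : Prop := ∀ (F : Type u) [Field F] (G : Type u) [Ring G] [Algebra F G] (N : ℕ)
  (W : Fin N → Submodule F G)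
  (B : Type u) [NonUnitalNonAssocRing B] [Module F B] [IsScalarTower F B B]
  [SMulCommClass F B B]
  (B' : Type u) [NonUnitalNonAssocRing B'] [Module F B'] [IsScalarTower F B' B']
  [SMulCommClass F B' B'] (p : PN F N),
  InVar F {f | Sat F B f} B' →
  (∀ ψ : PN F N →ₙₐ[F] G ⊗[F] B,
    (∀ i, ψ (FreeNonUnitalNonAssocAlgebra.of F i) ∈ TB (W i) B) → ψ p = 0) →
  ∀ ψ : PN F N →ₙₐ[F] G ⊗[F] B',
    (∀ i, ψ (FreeNonUnitalNonAssocAlgebra.of F i) ∈ TB (W i) B') → ψ p = 0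

/-- SUPB: from `G ⊗ Env` to the superalgebra -/
def S_SUPB : Prop := ∀ (F : Type u) [Field F] [CharZero F] (G : Type u) [Ring G] [Algebra F G]
  (e : ℕ → G), IsGrassmann F e → ∀ (m : ℕ)
  (A' : Type u) [NonUnitalNonAssocRing A'] [Module F A'] [IsScalarTower F A' A']
  [SMulCommClass F A' A'] (A : ZMod 2 → Submodule F A') (hA : IsSuper F A) (N : ℕ)
  (par : Fin N → ZMod 2) (x : Fin N → A'), (∀ i, x i ∈ A (par i)) → ∀ p : PN F N,
  (∀ ψ : PN F N →ₙₐ[F] G ⊗[F] (Env e m A hA),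
    (∀ i, ψ (FreeNonUnitalNonAssocAlgebra.of F i) ∈ TB (Gw F e 0 (par i)) (Env e m A hA)) →
    ψ p = 0) →
  FreeNonUnitalNonAssocAlgebra.lift F x p = 0

/-- SUPC: from the vanishing on special elements to an identity of the envelope -/
def S_SUPC : Prop := ∀ (F : Type u) [Field F] (G : Type u) [Ring G] [Algebra F G]
  (e : ℕ → G) (m : ℕ)
  (A' : Type u) [NonUnitalNonAssocRing A'] [Module F A'] [IsScalarTower F A' A']
  [SMulCommClass F A' A'] (A : ZMod 2 → Submodule F A') (_ : IsSuper F A) (N : ℕ)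
  (par : Fin N → ZMod 2) (x : Fin N → A') (_ : ∀ i, x i ∈ A (par i))
  (_ : NonUnitalAlgebra.adjoin F (Set.range x) = ⊤)
  (B : Type u) [NonUnitalNonAssocRing B] [Module F B] [IsScalarTower F B B]
  [SMulCommClass F B B],
  (∀ p : PN F N, (∀ ψ : PN F N →ₙₐ[F] G ⊗[F] B,
      (∀ i, ψ (FreeNonUnitalNonAssocAlgebra.of F i) ∈ TB (Gw F e 0 (par i)) B) → ψ p = 0) →
    FreeNonUnitalNonAssocAlgebra.lift F x p = 0) →
  ∀ f : Fr F, (∀ φ : Fin N → G ⊗[F] B, (∀ i, φ i ∈ TB (Gw F e 0 (par i)) B) →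
    ∀ Z : Fr F →ₙₐ[F] G ⊗[F] (G ⊗[F] B),
      (∀ k, Z (X F k) ∈ Submodule.span F {t : G ⊗[F] (G ⊗[F] B) | ∃ w : FreeMagma (Fin N),
        ∃ g ∈ Gw F e 0 (wp par w), g ⊗ₜ[F] (wv φ w) = t}) → Z f = 0) →
  f ∈ EnvId F e m A

/-- GEN: homogeneous generators -/
def S_GEN : Prop := ∀ (F : Type u) [Field F]
  (A' : Type u) [NonUnitalNonAssocRing A'] [Module F A'] [IsScalarTower F A' A']
  [SMulCommClass F A' A'] (A : ZMod 2 → Submodule F A'), IsSuper F A → ∀ s : Finset A',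
  NonUnitalAlgebra.adjoin F (s : Set A') = ⊤ →
  ∃ (N : ℕ) (par : Fin N → ZMod 2) (x : Fin N → A'), (∀ i, x i ∈ A (par i)) ∧
    NonUnitalAlgebra.adjoin F (Set.range x) = ⊤

/-- PSI: coordinates in `G ⊗ (G ⊗ JR F)` -/
def S_PSI : Prop := ∀ (F : Type u) [Field F] (G : Type u) [Ring G] [Algebra F G],
  ∃ (Ψ1 : G ⊗[F] (JR F) →ₙₐ[F] JR G) (Ψ : G ⊗[F] (G ⊗[F] (JR F)) →ₙₐ[F] JR (G ⊗[F] G)),
    Function.Injective Ψ ∧
    (∀ (g : G) (p : JR F), js (Ψ1 (g ⊗ₜ p)) = js p • g ∧ ∀ c, jv (Ψ1 (g ⊗ₜ p)) c = jv p c • g) ∧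
    (∀ (g : G) (t : G ⊗[F] (JR F)), js (Ψ (g ⊗ₜ t)) = g ⊗ₜ[F] (js (Ψ1 t)) ∧
      ∀ c, jv (Ψ (g ⊗ₜ t)) c = g ⊗ₜ[F] (jv (Ψ1 t) c))

/-- WORD: the value of a word in `JR G` -/
def S_WORD : Prop := ∀ (F : Type u) [Field F] (G : Type u) [Ring G] [Algebra F G]
  (e : ℕ → G), IsGrassmann F e → ∀ (N : ℕ) (par : Fin N → ZMod 2) (y : Fin N → JR G),
  (∀ i, js (y i) ∈ Gw F e 0 (par i)) → (∀ i c, jv (y i) c ∈ Gw F e 0 (par i)) →
  ∀ w : FreeMagma (Fin N), js (wv y w) ∈ Gw F e 0 (wp par w) ∧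
    ∃ β : Fin N → G, (∀ i, β i ∈ Gw F e 0 (wp par w + par i)) ∧
      ∀ c, jv (wv y w) c = ∑ i, β i * jv (y i) c

/-- `span {g ⊗ g' : g ∈ G_a, g' ∈ G_b}` -/
def BG {F : Type u} [Field F] {G : Type u} [Ring G] [Algebra F G] (e : ℕ → G) (a b : ZMod 2) :
    Submodule F (G ⊗[F] G) :=
  Submodule.span F {t | ∃ g ∈ Gw F e 0 a, ∃ g' ∈ Gw F e 0 b, g ⊗ₜ[F] g' = t}

/-- BIG: the bihomogeneous components of `G ⊗ G` -/
def S_BIG : Prop := ∀ (F : Type u) [Field F] [CharZero F] (G : Type u) [Ring G] [Algebra F G]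
  (e : ℕ → G), IsGrassmann F e →
  (∃ K : Subalgebra F (G ⊗[F] G), (∀ a ∈ K, ∀ b ∈ K, a * b = b * a) ∧
    K.toSubmodule = BG e 0 0 ⊔ BG e 1 1) ∧
  (∀ o ∈ BG e 0 1, ∀ r : G ⊗[F] G, o * r * o = 0) ∧
  (∀ o ∈ BG e 1 0, ∀ r : G ⊗[F] G, o * r * o = 0)

/-- STAR: the test polynomial vanishes on the special elements (uses PSI, WORD, BIG, DET) -/
def S_STAR : Prop := ∀ (F : Type u) [Field F] [CharZero F] (G : Type u) [Ring G] [Algebra F G]
  (e : ℕ → G), IsGrassmann F e → ∀ (N : ℕ) (par : Fin N → ZMod 2) (φ : Fin N → G ⊗[F] (JR F)),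
  (∀ i, φ i ∈ TB (Gw F e 0 (par i)) (JR F)) →
  ∀ Z : Fr F →ₙₐ[F] G ⊗[F] (G ⊗[F] (JR F)),
    (∀ k, Z (X F k) ∈ Submodule.span F {t : G ⊗[F] (G ⊗[F] (JR F)) | ∃ w : FreeMagma (Fin N),
      ∃ g ∈ Gw F e 0 (wp par w), g ⊗ₜ[F] (wv φ w) = t}) →
    Z (tJ F (N + 1) (2 * ((N + 1) * N) + 1)) = 0

end Pool.Agent.R685.SJ
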