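import Mathlib
import Pool.Agent.R685.SJ.Stm

set_option autoImplicit false
set_option linter.unusedSectionVars false

/-!
EVJ: value of the test polynomial over a commutative ring.
-/

namespace Pool.Agent.R685.SJ

open Pool.Agent.H163R3 Pool.Agent.R685 TensorProduct

universe u

namespace EVJx

section comm
variable {K : Type u} [CommRing K]

theorem ff_csmul (c : K) (u v : ℕ →₀ K) : ff (c • u) v = c * ff u v := by
  unfold ff
  rw [Finsupp.sum_smul_index' (fun _ => zero_mul _), Finsupp.mul_sum]
  refine Finsupp.sum_congr fun i _ => ?_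
  rw [smul_eq_mul, mul_assoc]

theorem ff_csmul' (c : K) (u v : ℕ →₀ K) : ff u (c • v) = c * ff u v := by
  unfold ff
  rw [Finsupp.mul_sum]
  refine Finsupp.sum_congr fun i _ => ?_
  rw [Finsupp.smul_apply, smul_eq_mul]
  ring

theorem rs_comm (u : ℕ →₀ K) (b : K) : rs u b = b • u := by
  ext i
  simp [mul_comm]

theorem ff_sub (u u' v : ℕ →₀ K) : ff (u - u') v = ff u v - ff u' v := by
  have h := ff_add (u - u') u' v
  rw [sub_add_cancel] at h
  rw [h]
  ring

@[simp] theorem js_sub (p q : JR K) : js (p - q) = js p - js q := rfl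
@[simp] theorem jv_sub (p q : JR K) : jv (p - q) = jv p - jv q := rfl

/-- the vector part of the associator -/
noncomputable def LL (v w u : ℕ →₀ K) : ℕ →₀ K := ff u v • w - ff v w • u

theorem asc_eq (p q r : JR K) : asc p q r = jp 0 (LL (jv q) (jv r) (jv p)) := by
  unfold asc
  apply JR_ext
  · simp only [JR_mul, js_sub, js_jp, jv_jp, rs_comm, ff_add, ff_add', ff_csmul, ff_csmul']
    ring
  · simp only [JR_mul, jv_sub, js_jp, jv_jp, rs_comm, LL]
    ext i
    simp only [Finsupp.sub_apply, Finsupp.add_apply, Finsupp.smul_apply, smul_eq_mul]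
    ring

theorem prod_eq (u v : ℕ →₀ K) : (jp 0 u : JR K) * jp 0 v = jp (ff u v) 0 := by
  apply JR_ext
  · simp only [JR_mul, js_jp, jv_jp, mul_zero, zero_add]
  · simp only [JR_mul, js_jp, jv_jp, rs_comm, zero_smul, zero_add]

theorem LL_add (v w u u' : ℕ →₀ K) : LL v w (u + u') = LL v w u + LL v w u' := by
  unfold LL
  rw [ff_add, add_smul, smul_add]
  abel

theorem LL_smul (v w : ℕ →₀ K) (c : K) (u : ℕ →₀ K) : LL v w (c • u) = c • LL v w u := by
  unfold LL
  rw [ff_csmul]
  ext i
  simp only [Finsupp.sub_apply, Finsupp.smul_apply, smul_eq_mul]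
  ring

/-- the functionals -/
noncomputable def lam (v w u' : ℕ →₀ K) : (ℕ →₀ K) →ₗ[K] K where
  toFun u := ff (LL v w u) (LL v w u')
  map_add' a b := by rw [LL_add, ff_add]
  map_smul' c a := by rw [LL_smul, ff_csmul, RingHom.id_apply, smul_eq_mul]

variable {F : Type u} [Field F] [Algebra F K]

/-- multiplication by scalars -/
noncomputable def MM : K →+* Module.End F (JR K) where
  toFun c :=
    { toFun := fun s => jp (c * js s) (c • jv s)
      map_add' := fun s t => by
        apply JR_ext
        · simp only [js_jp, js_add, mul_add]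
        · simp only [jv_jp, jv_add, smul_add]
      map_smul' := fun a s => by
        apply JR_ext
        · simp only [js_jp, js_smul, RingHom.id_apply, mul_smul_comm]
        · simp only [jv_jp, jv_smul, RingHom.id_apply]
          exact smul_comm c a (jv s) }
  map_one' := by
    apply LinearMap.ext
    intro s
    apply JR_ext
    · change 1 * js s = js s
      rw [one_mul]
    · change (1 : K) • jv s = jv s
      rw [one_smul]
  map_mul' c d := by
    apply LinearMap.ext
    intro s
    apply JR_ext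
    · change (c * d) * js s = c * (d * js s)
      rw [mul_assoc]
    · change (c * d) • jv s = c • (d • jv s)
      rw [mul_smul]
  map_zero' := by
    apply LinearMap.ext
    intro s
    apply JR_ext
    · change 0 * js s = 0
      rw [zero_mul]
    · change (0 : K) • jv s = 0
      rw [zero_smul]
  map_add' c d := by
    apply LinearMap.ext
    intro s
    apply JR_ext
    · change (c + d) * js s = c * js s + d * js s
      rw [add_mul]
    · change (c + d) • jv s = c • jv s + d • jv s
      rw [add_smul]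

theorem MM_js (c : K) (s : JR K) : js (MM (F := F) c s) = c * js s := rfl
theorem MM_jv (c : K) (s : JR K) : jv (MM (F := F) c s) = c • jv s := rfl

theorem Ro_eq (c : K) : Ro (F := F) (jp c 0 : JR K) = MM (F := F) c := by
  apply LinearMap.ext
  intro s
  rw [Ro_apply]
  apply JR_ext
  · rw [MM_js]
    simp only [JR_mul, js_jp, jv_jp, ff_zero', add_zero]
    ring
  · rw [MM_jv]
    simp only [JR_mul, js_jp, jv_jp, rs_comm, smul_zero, zero_add]

theorem pr_MM (h : ℕ) (v : Fin h → K) :
    pr h (fun i => MM (F := F) (v i)) = MM (F := F) (∏ i, v i) := by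
  unfold pr
  rw [← List.prod_ofFn, map_list_prod, List.map_ofFn]
  rfl

theorem dt_MM (h : ℕ) (m : Fin h → Fin h → K) :
    dt h (fun k i => MM (F := F) (m k i)) = MM (F := F) (Matrix.det (Matrix.of m)) := by
  unfold dt
  rw [Matrix.det_apply, map_sum]
  refine Finset.sum_congr rfl fun σ _ => ?_
  rw [pr_MM]
  rcases Int.units_eq_one_or (Equiv.Perm.sign σ) with h | h <;> rw [h]
  · rw [one_smul, one_smul]
    rfl
  · rw [Units.neg_smul, Units.neg_smul, one_smul, one_smul, map_neg]
    rfl

end comm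

theorem tJ_eval {F : Type u} [Field F] {B : Type u} [NonUnitalNonAssocRing B] [Module F B]
    [IsScalarTower F B B] [SMulCommClass F B B] (φ : Fr F →ₙₐ[F] B) (h C : ℕ) :
    φ (tJ F h C) = ((dt h fun k i : Fin h => Ro (F := F)
      (asc (φ (X F (2 * (k : ℕ) + 3))) (φ (X F 1)) (φ (X F 2)) *
        asc (φ (X F (2 * (i : ℕ) + 4))) (φ (X F 1)) (φ (X F 2)))) ^ C) (φ (X F 0)) := by
  unfold tJ
  rw [Itw_pow φ (Itw_dt φ h _ (fun k i : Fin h => Ro (F := F)
      (asc (φ (X F (2 * (k : ℕ) + 3))) (φ (X F 1)) (φ (X F 2)) *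
        asc (φ (X F (2 * (i : ℕ) + 4))) (φ (X F 1)) (φ (X F 2)))) ?_) C]
  intro i j s
  rw [Ro_apply, Ro_apply]
  simp only [asc, map_mul, map_sub]

end EVJx

open EVJx in
theorem t_EVJ : S_EVJ.{u} := by
  intro F _ K _ _ h C φ
  refine ⟨fun i => lam (jv (φ (X F 1))) (jv (φ (X F 2))) (jv (φ (X F (2 * (i : ℕ) + 4)))), ?_⟩
  have key : φ (tJ F h C) = MM (F := F) ((Matrix.det (Matrix.of fun k i : Fin h =>
      lam (jv (φ (X F 1))) (jv (φ (X F 2))) (jv (φ (X F (2 * (i : ℕ) + 4))))
        (jv (φ (X F (2 * (k : ℕ) + 3)))))) ^ C) (φ (X F 0)) := by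
    rw [tJ_eval]
    have : (fun k i : Fin h => Ro (F := F)
      (asc (φ (X F (2 * (k : ℕ) + 3))) (φ (X F 1)) (φ (X F 2)) *
        asc (φ (X F (2 * (i : ℕ) + 4))) (φ (X F 1)) (φ (X F 2)))) = fun k i : Fin h =>
      MM (F := F) (lam (jv (φ (X F 1))) (jv (φ (X F 2))) (jv (φ (X F (2 * (i : ℕ) + 4))))
        (jv (φ (X F (2 * (k : ℕ) + 3))))) := by
      funext k i
      rw [asc_eq, asc_eq, prod_eq, Ro_eq]
      rfl
    rw [this, dt_MM, map_pow]
  exact ⟨by rw [key, MM_js], by rw [key, MM_jv]⟩

end Pool.Agent.R685.SJ
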