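import Pool.Agent.R685.SJ.Stm

set_option autoImplicit false

/-!
Homogeneous generators.
-/

namespace Pool.Agent.R685.SJ

open Pool.Agent.H163R3 Pool.Agent.R685

universe u

theorem t_GEN : S_GEN.{u} := by
  intro F _ A' _ _ _ _ A hA s hs
  choose α hα β hβ hv using fun a : A' => homSum hA a
  let e := s.equivFin
  refine ⟨s.card + s.card, Fin.append (fun _ => 0) (fun _ => 1),
    Fin.append (fun j => α (e.symm j)) (fun j => β (e.symm j)), ?_, ?_⟩
  · intro i
    refine Fin.addCases (fun j => ?_) (fun j => ?_) i
    · rw [Fin.append_left, Fin.append_left]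
      exact hα _
    · rw [Fin.append_right, Fin.append_right]
      exact hβ _
  · rw [eq_top_iff, ← hs]
    refine NonUnitalAlgebra.adjoin_le ?_
    intro a ha
    have h1 : α a ∈ NonUnitalAlgebra.adjoin F (Set.range
        (Fin.append (fun j => α (e.symm j)) (fun j => β (e.symm j)))) := by
      apply NonUnitalAlgebra.subset_adjoin
      refine ⟨Fin.castAdd _ (e ⟨a, ha⟩), ?_⟩
      rw [Fin.append_left, Equiv.symm_apply_apply]
    have h2 : β a ∈ NonUnitalAlgebra.adjoin F (Set.range
        (Fin.append (fun j => α (e.symm j)) (fun j => β (e.symm j)))) := by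
      apply NonUnitalAlgebra.subset_adjoin
      refine ⟨Fin.natAdd _ (e ⟨a, ha⟩), ?_⟩
      rw [Fin.append_right, Equiv.symm_apply_apply]
    have h3 := add_mem h1 h2
    rw [hv] at h3
    exact h3

end Pool.Agent.R685.SJ
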