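import Pool.Agent.R685.SJ.Stm

/-!
JORD: `JR F` is a Jordan algebra.
-/

set_option autoImplicit false

namespace Pool.Agent.R685.SJ

open Pool.Agent.H163R3 Pool.Agent.R685

universe u

namespace Jord

variable {F : Type u} [Field F]

theorem ff_eq (u v : ℕ →₀ F) : ff u v = ∑ c ∈ u.support ∪ v.support, u c * v c := by
  unfold ff
  exact Finsupp.sum_of_support_subset u Finset.subset_union_left _ (by simp)

theorem ff_comm (u v : ℕ →₀ F) : ff u v = ff v u := by
  rw [ff_eq, ff_eq, Finset.union_comm]
  exact Finset.sum_congr rfl fun c _ => mul_comm _ _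

theorem rs_eq (u : ℕ →₀ F) (b : F) : rs u b = b • u := by
  ext c
  simp [mul_comm]

theorem ff_sm (c : F) (u v : ℕ →₀ F) : ff (c • u) v = c * ff u v := by
  have h := ff_smul c u v
  simpa using h

theorem ff_sm' (c : F) (u v : ℕ →₀ F) : ff u (c • v) = c * ff u v := by
  have h := ff_smul' c u v
  simpa using h

theorem jr_comm (p q : JR F) : p * q = q * p := by
  apply JR_ext
  · simp only [JR_mul, js_jp]
    rw [ff_comm (jv p) (jv q), mul_comm]
  · simp only [JR_mul, jv_jp, rs_eq]
    rw [add_comm]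

theorem jr_jordan (p q : JR F) : ((p * p) * q) * p = (p * p) * (q * p) := by
  apply JR_ext
  · simp only [JR_mul, js_jp, jv_jp, rs_eq, ff_add, ff_add', ff_sm, ff_sm']
    rw [ff_comm (jv q) (jv p)]
    ring
  · simp only [JR_mul, js_jp, jv_jp, rs_eq, ff_add, ff_add', ff_sm, ff_sm']
    rw [ff_comm (jv q) (jv p)]
    ext c
    simp only [Finsupp.add_apply, Finsupp.smul_apply, smul_eq_mul]
    ring

end Jord

theorem t_JORD : S_JORD.{u} := by
  intro F _ f hf φ
  unfold JordId at hf
  rcases hf with hf | hf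
  · rw [hf, map_sub, map_mul, map_mul, Jord.jr_comm, sub_self]
  · rw [Set.mem_singleton_iff] at hf
    rw [hf]
    simp only [map_sub, map_mul]
    rw [Jord.jr_jordan, sub_self]

end Pool.Agent.R685.SJ
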