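import Pool.Agent.R685.SJ.Stm

set_option autoImplicit false
set_option linter.unusedSectionVars false

namespace Pool.Agent.R685.SJ

open Pool.Agent.H163R3 Pool.Agent.R685 TensorProduct

universe u

/-- the identities of `JR F` -/
def IdJ (F : Type u) [Field F] : Set (Fr F) := {f | Sat F (JR F) f}

theorem IdJ_jord (hJ : S_JORD.{u}) (F : Type u) [Field F] (B : Type u) [NonUnitalNonAssocRing B]
    [Module F B] [IsScalarTower F B B] [SMulCommClass F B B] (h : InVar F (IdJ F) B) :
    InVar F (JordId F) B := fun f hf => h f (hJ F f hf)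

theorem main (hNZ : S_NZ.{u}) (hA : S_SUPA.{u}) (hB : S_SUPB.{u}) (hC : S_SUPC.{u})
    (hG : S_GEN.{u}) (hS : S_STAR.{u}) (F : Type u) [Field F] [CharZero F]
    (G : Type u) [Ring G] [Algebra F G] (e : ℕ → G) (he : IsGrassmann F e) (m : ℕ) :
    ¬ FinSuperrank F e m (IdJ F) := by
  rintro ⟨A', i1, i2, i3, i4, A, hsup, ⟨s, hs⟩, hV⟩
  obtain ⟨N, par, x, hx, hgen⟩ := hG F A' A hsup s hs
  have hEnv : InVar F (IdJ F) (Env e m A hsup) :=
    (hV (Env e m A hsup)).2 fun f hf => Env_sat' m hsup hf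
  have key : tJ F (N + 1) (2 * ((N + 1) * N) + 1) ∈ EnvId F e m A := by
    refine hC F G e m A' A hsup N par x hx hgen (JR F) ?_ _ ?_
    · intro p hp
      refine hB F G e he m A' A hsup N par x hx p ?_
      exact hA F G N (fun i => Gw F e 0 (par i)) (JR F) (Env e m A hsup) p hEnv hp
    · intro φ hφ Z hZ
      exact hS F G e he N par φ hφ Z hZ
  have hJR : InVar F (EnvId F e m A) (JR F) := (hV (JR F)).1 fun f hf => hf
  exact hNZ F _ _ (hJR _ key)

end Pool.Agent.R685.SJ
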