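import Pool.Agent.R685.SJ.Stm

set_option autoImplicit false
set_option linter.unusedSectionVars false

namespace Pool.Agent.R685.SJ

open Pool.Agent.H163R3 Pool.Agent.R685 TensorProduct

universe u

theorem nz_asc {B B' : Type u} [NonUnitalNonAssocRing B] [NonUnitalNonAssocRing B']
    {F : Type u} [Field F] [Module F B] [Module F B'] (φ : B →ₙₐ[F] B') (x y z : B) :
    φ (asc x y z) = asc (φ x) (φ y) (φ z) := by
  unfold asc
  rw [map_sub, map_mul, map_mul, map_mul, map_mul]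

theorem nz_eval {F : Type u} [Field F] {B : Type u} [NonUnitalNonAssocRing B] [Module F B]
    [IsScalarTower F B B] [SMulCommClass F B B] (φ : Fr F →ₙₐ[F] B) (h C : ℕ) :
    φ (tJ F h C) = ((dt h fun k i : Fin h => Ro (F := F)
      (asc (φ (X F (2 * (k : ℕ) + 3))) (φ (X F 1)) (φ (X F 2)) *
        asc (φ (X F (2 * (i : ℕ) + 4))) (φ (X F 1)) (φ (X F 2)))) ^ C) (φ (X F 0)) := by
  unfold tJ
  rw [Itw_pow φ (Itw_dt φ h _ (fun k i : Fin h => Ro (F := F)
      (asc (φ (X F (2 * (k : ℕ) + 3))) (φ (X F 1)) (φ (X F 2)) *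
        asc (φ (X F (2 * (i : ℕ) + 4))) (φ (X F 1)) (φ (X F 2)))) ?_) C]
  intro k i s
  simp only [Ro_apply, map_mul, nz_asc]

/-- the substitution -/
noncomputable def nz_sb (F : Type u) [Field F] (i : ℕ) : JR F :=
  if i = 0 then jp 1 0 else if i = 1 then jp 0 (Finsupp.single 0 1)
  else if i = 2 then jp 0 (Finsupp.single 0 1)
  else if i % 2 = 1 then jp 0 (Finsupp.single ((i - 3) / 2 + 1) 1)
  else jp 0 (Finsupp.single ((i - 4) / 2 + 1) 1)

theorem nz_sb_y {F : Type u} [Field F] (k : ℕ) :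
    nz_sb F (2 * k + 3) = jp 0 (Finsupp.single (k + 1) 1) := by
  unfold nz_sb
  have h1 : ¬ (2 * k + 3 = 0) := by omega
  have h2 : ¬ (2 * k + 3 = 1) := by omega
  have h3 : ¬ (2 * k + 3 = 2) := by omega
  have h4 : (2 * k + 3) % 2 = 1 := by omega
  have h5 : (2 * k + 3 - 3) / 2 = k := by omega
  rw [if_neg h1, if_neg h2, if_neg h3, if_pos h4, h5]

theorem nz_sb_w {F : Type u} [Field F] (k : ℕ) :
    nz_sb F (2 * k + 4) = jp 0 (Finsupp.single (k + 1) 1) := by
  unfold nz_sb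
  have h1 : ¬ (2 * k + 4 = 0) := by omega
  have h2 : ¬ (2 * k + 4 = 1) := by omega
  have h3 : ¬ (2 * k + 4 = 2) := by omega
  have h4 : ¬ (2 * k + 4) % 2 = 1 := by omega
  have h5 : (2 * k + 4 - 4) / 2 = k := by omega
  rw [if_neg h1, if_neg h2, if_neg h3, if_neg h4, h5]

theorem nz_ff_single {F : Type u} [Field F] (a : ℕ) (r : F) (v : ℕ →₀ F) :
    ff (Finsupp.single a r) v = r * v a := by
  unfold ff
  rw [Finsupp.sum_single_index (zero_mul _)]

theorem nz_vec {F : Type u} [Field F] (u v : ℕ →₀ F) :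
    (jp 0 u : JR F) * jp 0 v = jp (ff u v) 0 := by
  apply JR_ext
  · simp [JR_mul]
  · ext c
    simp [JR_mul]

theorem nz_sc {F : Type u} [Field F] (u : ℕ →₀ F) (r : F) :
    (jp 0 u : JR F) * jp r 0 = jp 0 (rs u r) := by
  apply JR_ext
  · simp [JR_mul]
  · ext c
    simp [JR_mul]

theorem nz_asc_val {F : Type u} [Field F] (k : ℕ) :
    asc (jp 0 (Finsupp.single (k + 1) 1) : JR F) (jp 0 (Finsupp.single 0 1))
      (jp 0 (Finsupp.single 0 1)) = jp 0 (-(Finsupp.single (k + 1) 1)) := by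
  unfold asc
  rw [nz_vec, nz_vec, nz_ff_single, nz_ff_single, nz_sc]
  have h1 : (Finsupp.single 0 1 : ℕ →₀ F) (k + 1) = 0 := by
    rw [Finsupp.single_apply, if_neg (by omega)]
  have h2 : (jp ((1 : F) * (Finsupp.single 0 1 : ℕ →₀ F) (k + 1)) 0 : JR F) = 0 := by
    rw [h1, mul_zero]
    rfl
  rw [h2, zero_mul, zero_sub, Finsupp.single_eq_same, mul_one]
  have h3 : rs (Finsupp.single (k + 1) 1 : ℕ →₀ F) 1 = Finsupp.single (k + 1) 1 := by
    ext c
    simp
  rw [h3]
  apply JR_ext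
  · show -(0 : F) = 0
    exact neg_zero
  · rfl

theorem t_NZ : S_NZ.{u} := by
  intro F _ h C hs
  set φ : Fr F →ₙₐ[F] JR F := FreeNonUnitalNonAssocAlgebra.lift F (nz_sb F) with hφ
  have hX : ∀ i, φ (X F i) = nz_sb F i := by intro i; simp [hφ, X]
  have h1 := hs φ
  rw [nz_eval] at h1
  simp only [hX] at h1
  have e1 : nz_sb F 0 = jp 1 0 := by simp [nz_sb]
  have e2 : nz_sb F 1 = jp 0 (Finsupp.single 0 1) := by simp [nz_sb]
  have e3 : nz_sb F 2 = jp 0 (Finsupp.single 0 1) := by simp [nz_sb]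
  rw [e1, e2, e3] at h1
  have h2 := dt_scal (F := F) (jp 1 0 : JR F) h
    (fun k i : Fin h => Ro (F := F) (asc (nz_sb F (2 * (k : ℕ) + 3)) (jp 0 (Finsupp.single 0 1))
      (jp 0 (Finsupp.single 0 1)) * asc (nz_sb F (2 * (i : ℕ) + 4)) (jp 0 (Finsupp.single 0 1))
      (jp 0 (Finsupp.single 0 1))))
    1 (by
      intro i j
      rw [nz_sb_y, nz_sb_w, nz_asc_val, nz_asc_val, Ro_apply, nz_vec]
      have h3 : ff (-(Finsupp.single ((i : ℕ) + 1) 1) : ℕ →₀ F)
          (-(Finsupp.single ((j : ℕ) + 1) 1)) = (1 : Matrix (Fin h) (Fin h) F) i j := by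
        rw [← Finsupp.single_neg, nz_ff_single, Finsupp.neg_apply, Finsupp.single_apply,
          Matrix.one_apply]
        by_cases hij : i = j
        · subst hij
          simp
        · have hij' : ¬ ((j : ℕ) + 1 = (i : ℕ) + 1) := by
            intro h'
            exact hij (Fin.ext (by omega))
          rw [if_neg hij', if_neg hij]
          simp
      rw [h3]
      apply JR_ext
      · simp [JR_mul]
      · ext c
        simp [JR_mul])
  rw [pow_scal _ _ _ h2, Matrix.det_one, one_pow, one_smul] at h1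
  have h3 := congrArg js h1
  rw [js_jp] at h3
  exact one_ne_zero h3

end Pool.Agent.R685.SJ
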