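import Pool.Agent.R685.SJ.Stm

set_option autoImplicit false

namespace Pool.Agent.R685.SJ

universe u

theorem PIG_aux (R : Type u) [Ring R] (L : ℕ) (o : Fin L → R) (ho : ∀ l r, o l * r * o l = 0) :
    ∀ qs : List R, (∀ q ∈ qs, q ∈ AddSubgroup.closure
      {t | ∃ (l : Fin L) (r r' : R), r * o l * r' = t}) →
    ∀ (S : Finset (Fin L)) (a : R), (∀ l ∈ S, ∀ r, a * r * o l = 0) →
      L < S.card + qs.length → a * qs.prod = 0 := by
  intro qs
  induction qs with
  | nil =>
    intro _ S a _ hlt
    exfalso
    have := S.card_le_univ
    simp only [Fintype.card_fin] at this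
    simp only [List.length_nil, add_zero] at hlt
    omega
  | cons q qs ih =>
    intro hq S a ha hlt
    rw [List.prod_cons]
    have hqs : ∀ q' ∈ qs, q' ∈ AddSubgroup.closure
        {t | ∃ (l : Fin L) (r r' : R), r * o l * r' = t} := fun q' h => hq q' (List.mem_cons_of_mem _ h)
    have hq0 := hq q List.mem_cons_self
    refine AddSubgroup.closure_induction
      (p := fun q _ => a * (q * qs.prod) = 0) ?_ ?_ ?_ ?_ hq0
    · rintro _ ⟨l, r, r', rfl⟩
      by_cases hl : l ∈ S
      · have e : a * (r * o l * r' * qs.prod) = (a * r * o l) * (r' * qs.prod) := by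
          simp only [mul_assoc]
        rw [e, ha l hl r, zero_mul]
      · have e : a * (r * o l * r' * qs.prod) = (a * r * o l * r') * qs.prod := by
          simp only [mul_assoc]
        rw [e]
        apply ih hqs (insert l S) (a * r * o l * r')
        · intro l' hl' r''
          rcases Finset.mem_insert.1 hl' with rfl | h
          · have e2 : a * r * o l' * r' * r'' * o l' = a * r * (o l' * (r' * r'') * o l') := by
              simp only [mul_assoc]
            rw [e2, ho, mul_zero]
          · have e2 : a * r * o l * r' * r'' * o l' = a * (r * o l * r' * r'') * o l' := by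
              simp only [mul_assoc]
            rw [e2, ha l' h]
        · rw [Finset.card_insert_of_notMem hl]
          simp only [List.length_cons] at hlt
          omega
    · simp
    · intro x y _ _ hx hy
      rw [add_mul, mul_add, hx, hy, add_zero]
    · intro x _ hx
      rw [neg_mul, mul_neg, hx, neg_zero]

theorem t_PIG : S_PIG.{u} := by
  intro R _ L o ho q hq
  have h := PIG_aux R L o ho (List.ofFn q) (by
    intro q' hq'
    rw [List.mem_ofFn] at hq'
    obtain ⟨j, rfl⟩ := hq'
    exact hq j) ∅ 1 (by simp) (by simp)
  rwa [one_mul] at h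

end Pool.Agent.R685.SJ
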