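import Pool.Agent.R685.SJ.Stm

/-!
Project SJ (MP_a40872_al), piece PSI: coordinates in `G ⊗ (G ⊗ JR F)`.
-/

set_option autoImplicit false
set_option linter.unusedSectionVars false

namespace Pool.Agent.R685.SJ

open Pool.Agent.H163R3 Pool.Agent.R685 TensorProduct

universe u

namespace PsiX

variable {F : Type u} [Field F] {G : Type u} [Ring G] [Algebra F G]

theorem mul_of_tmul {A : Type u} [NonUnitalNonAssocRing A] [Module F A] [IsScalarTower F A A]
    [SMulCommClass F A A] {C : Type u} [NonUnitalNonAssocRing C] [Module F C]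
    (f : G ⊗[F] A →ₗ[F] C)
    (h : ∀ (g g' : G) (a a' : A), f ((g * g') ⊗ₜ[F] (a * a')) = f (g ⊗ₜ a) * f (g' ⊗ₜ a'))
    (x y : G ⊗[F] A) : f (x * y) = f x * f y := by
  induction x using TensorProduct.induction_on with
  | zero => rw [zero_mul, map_zero, zero_mul]
  | add x x' hx hx' => rw [add_mul, map_add, hx, hx', map_add, add_mul]
  | tmul g a =>
    induction y using TensorProduct.induction_on with
    | zero => rw [mul_zero, map_zero, mul_zero]
    | add y y' hy hy' => rw [mul_add, map_add, hy, hy', map_add, mul_add]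
    | tmul g' a' => rw [Algebra.TensorProduct.tmul_mul_tmul, h]

variable (F) in
/-- pairs -/
noncomputable def eJ (R : Type u) [Ring R] [Algebra F R] : JR R ≃ₗ[F] (R × (ℕ →₀ R)) where
  toFun p := (js p, jv p)
  invFun q := jp q.1 q.2
  map_add' _ _ := rfl
  map_smul' _ _ := rfl
  left_inv _ := rfl
  right_inv _ := rfl

variable (F G) in
/-- coordinates -/
noncomputable def TH (T : Type u) [Ring T] [Algebra F T] : G ⊗[F] (JR T) ≃ₗ[F] JR (G ⊗[F] T) :=
  (TensorProduct.congr (LinearEquiv.refl F G) (eJ F T)) ≪≫ₗ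
    (TensorProduct.prodRight F F G T (ℕ →₀ T)) ≪≫ₗ
    ((LinearEquiv.refl F (G ⊗[F] T)).prodCongr (TensorProduct.finsuppRight F F G T ℕ)) ≪≫ₗ
    (eJ F (G ⊗[F] T)).symm

theorem TH_js (T : Type u) [Ring T] [Algebra F T] (g : G) (t : JR T) :
    js (TH F G T (g ⊗ₜ[F] t)) = g ⊗ₜ[F] (js t) := rfl

theorem TH_jv (T : Type u) [Ring T] [Algebra F T] (g : G) (t : JR T) (c : ℕ) :
    jv (TH F G T (g ⊗ₜ[F] t)) c = g ⊗ₜ[F] (jv t c) := by
  have h : jv (TH F G T (g ⊗ₜ[F] t)) = TensorProduct.finsuppRight F F G T ℕ (g ⊗ₜ[F] (jv t)) := rfl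
  rw [h, TensorProduct.finsuppRight_apply_tmul_apply]

/-- the form of two vectors with coordinates in a bilinear image -/
theorem ff_map {R S : Type u} [Ring R] [Ring S] (m : R →+ S) (u v : ℕ →₀ R) (U V : ℕ →₀ S)
    (hU : ∀ c, u c = 0 → U c = 0) (h : ∀ c, U c * V c = m (u c * v c)) :
    ff U V = m (ff u v) := by
  have h1 : ff U V = ∑ c ∈ u.support, U c * V c := by
    unfold ff
    refine Finsupp.sum_of_support_subset U ?_ (fun c r => r * V c) (fun c _ => zero_mul _)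
    intro c hc
    rw [Finsupp.mem_support_iff] at hc ⊢
    exact fun h0 => hc (hU c h0)
  have h2 : ff u v = ∑ c ∈ u.support, u c * v c := rfl
  rw [h1, h2, map_sum]
  exact Finset.sum_congr rfl fun c _ => h c

theorem TH_mul (T : Type u) [Ring T] [Algebra F T] (x y : G ⊗[F] (JR T)) :
    TH F G T (x * y) = TH F G T x * TH F G T y := by
  refine mul_of_tmul (TH F G T).toLinearMap ?_ x y
  intro g g' a a'
  change TH F G T ((g * g') ⊗ₜ[F] (a * a')) = TH F G T (g ⊗ₜ a) * TH F G T (g' ⊗ₜ a')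
  apply JR_ext
  · rw [TH_js, JR_mul, JR_mul, js_jp, js_jp, TH_js, TH_js, Algebra.TensorProduct.tmul_mul_tmul,
      TensorProduct.tmul_add]
    congr 1
    refine (ff_map (TensorProduct.mk F G T (g * g')).toAddMonoidHom (jv a) (jv a') _ _ ?_ ?_).symm
    · intro c hc
      rw [TH_jv, hc, TensorProduct.tmul_zero]
    · intro c
      rw [TH_jv, TH_jv, Algebra.TensorProduct.tmul_mul_tmul]
      rfl
  · ext c
    rw [TH_jv, JR_mul, JR_mul, jv_jp, jv_jp, Finsupp.add_apply, Finsupp.add_apply, rs_apply,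
      rs_apply, Finsupp.smul_apply, Finsupp.smul_apply, TH_js, TH_js, TH_jv, TH_jv,
      TensorProduct.tmul_add, smul_eq_mul, smul_eq_mul, Algebra.TensorProduct.tmul_mul_tmul,
      Algebra.TensorProduct.tmul_mul_tmul]

/-- functoriality of `JR` -/
noncomputable def mJ {R S : Type u} [Ring R] [Ring S] [Algebra F R] [Algebra F S]
    (f : R ≃ₐ[F] S) : JR R ≃ₗ[F] JR S :=
  (eJ F R) ≪≫ₗ (f.toLinearEquiv.prodCongr (Finsupp.mapRange.linearEquiv f.toLinearEquiv)) ≪≫ₗ
    (eJ F S).symm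

theorem mJ_js {R S : Type u} [Ring R] [Ring S] [Algebra F R] [Algebra F S]
    (f : R ≃ₐ[F] S) (p : JR R) : js (mJ f p) = f (js p) := rfl

theorem mJ_jv {R S : Type u} [Ring R] [Ring S] [Algebra F R] [Algebra F S]
    (f : R ≃ₐ[F] S) (p : JR R) (c : ℕ) : jv (mJ f p) c = f (jv p c) := rfl

theorem mJ_mul {R S : Type u} [Ring R] [Ring S] [Algebra F R] [Algebra F S]
    (f : R ≃ₐ[F] S) (p q : JR R) : mJ f (p * q) = mJ f p * mJ f q := by
  apply JR_ext
  · rw [mJ_js, JR_mul, JR_mul, js_jp, js_jp, mJ_js, mJ_js, map_add, map_mul]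
    congr 1
    refine (ff_map ((f : R →+* S) : R →+ S) (jv p) (jv q) _ _ ?_ ?_).symm
    · intro c hc
      rw [mJ_jv, hc, map_zero]
    · intro c
      rw [mJ_jv, mJ_jv, ← map_mul]
      rfl
  · ext c
    rw [mJ_jv, JR_mul, JR_mul, jv_jp, jv_jp, Finsupp.add_apply, Finsupp.add_apply, rs_apply,
      rs_apply, Finsupp.smul_apply, Finsupp.smul_apply, mJ_js, mJ_js, mJ_jv, mJ_jv,
      smul_eq_mul, smul_eq_mul, map_add, map_mul, map_mul]

/-- the first map -/
noncomputable def P1 (F : Type u) [Field F] (G : Type u) [Ring G] [Algebra F G] :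
    G ⊗[F] (JR F) ≃ₗ[F] JR G :=
  (TH F G F) ≪≫ₗ (mJ (Algebra.TensorProduct.rid F F G))

theorem P1_js (g : G) (p : JR F) : js (P1 F G (g ⊗ₜ[F] p)) = js p • g := by
  change Algebra.TensorProduct.rid F F G (js (TH F G F (g ⊗ₜ[F] p))) = _
  rw [TH_js, Algebra.TensorProduct.rid_tmul]

theorem P1_jv (g : G) (p : JR F) (c : ℕ) : jv (P1 F G (g ⊗ₜ[F] p)) c = jv p c • g := by
  change Algebra.TensorProduct.rid F F G (jv (TH F G F (g ⊗ₜ[F] p)) c) = _
  rw [TH_jv, Algebra.TensorProduct.rid_tmul]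

theorem P1_mul (x y : G ⊗[F] (JR F)) : P1 F G (x * y) = P1 F G x * P1 F G y := by
  change mJ _ (TH F G F (x * y)) = mJ _ (TH F G F x) * mJ _ (TH F G F y)
  rw [TH_mul, mJ_mul]

/-- the second map -/
noncomputable def P2 (F : Type u) [Field F] (G : Type u) [Ring G] [Algebra F G] :
    G ⊗[F] (G ⊗[F] (JR F)) ≃ₗ[F] JR (G ⊗[F] G) :=
  (TensorProduct.congr (LinearEquiv.refl F G) (P1 F G)) ≪≫ₗ (TH F G G)

theorem P2_tmul (g : G) (t : G ⊗[F] (JR F)) :
    P2 F G (g ⊗ₜ[F] t) = TH F G G (g ⊗ₜ[F] (P1 F G t)) := rfl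

theorem P2_mul (x y : G ⊗[F] (G ⊗[F] (JR F))) : P2 F G (x * y) = P2 F G x * P2 F G y := by
  refine mul_of_tmul (P2 F G).toLinearMap ?_ x y
  intro g g' a a'
  change P2 F G ((g * g') ⊗ₜ[F] (a * a')) = P2 F G (g ⊗ₜ a) * P2 F G (g' ⊗ₜ a')
  rw [P2_tmul, P2_tmul, P2_tmul, P1_mul, ← Algebra.TensorProduct.tmul_mul_tmul, TH_mul]

/-- the first homomorphism -/
noncomputable def N1 (F : Type u) [Field F] (G : Type u) [Ring G] [Algebra F G] :
    G ⊗[F] (JR F) →ₙₐ[F] JR G where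
  toFun := P1 F G
  map_smul' c x := (P1 F G).map_smul c x
  map_zero' := (P1 F G).map_zero
  map_add' := (P1 F G).map_add
  map_mul' := P1_mul

/-- the second homomorphism -/
noncomputable def N2 (F : Type u) [Field F] (G : Type u) [Ring G] [Algebra F G] :
    G ⊗[F] (G ⊗[F] (JR F)) →ₙₐ[F] JR (G ⊗[F] G) where
  toFun := P2 F G
  map_smul' c x := (P2 F G).map_smul c x
  map_zero' := (P2 F G).map_zero
  map_add' := (P2 F G).map_add
  map_mul' := P2_mul

end PsiX

open PsiX in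
theorem t_PSI : S_PSI.{u} := by
  intro F _ G _ _
  refine ⟨N1 F G, N2 F G, ?_, ?_, ?_⟩
  · exact (P2 F G).injective
  · intro g p
    exact ⟨P1_js g p, P1_jv g p⟩
  · intro g t
    constructor
    · change js (P2 F G (g ⊗ₜ[F] t)) = g ⊗ₜ[F] (js (P1 F G t))
      rw [P2_tmul, TH_js]
    · intro c
      change jv (P2 F G (g ⊗ₜ[F] t)) c = g ⊗ₜ[F] (jv (P1 F G t) c)
      rw [P2_tmul, TH_jv]

end Pool.Agent.R685.SJ
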