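import Pool.Agent.R685.SJ.Stm

/-!
The determinant lies in the ideal generated by the coordinates.
-/

set_option autoImplicit false
set_option linter.all false

namespace Pool.Agent.R685.SJ

universe u

theorem t_RANK : S_RANK.{u} := by
  intro K _ N lam x y v κ h
  have hy : ∀ i k, lam i (y k) ∈ Ideal.span {t : K | ∃ k c, y k c = t} := by
    intro i k
    have h1 : lam i (y k) = ∑ c ∈ (y k).support, (y k c) * lam i (Finsupp.single c 1) := by
      conv_lhs => rw [← Finsupp.sum_single (y k)]
      rw [Finsupp.sum, map_sum]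
      refine Finset.sum_congr rfl fun c _ => ?_
      have h2 : (Finsupp.single c (y k c) : ℕ →₀ K) = (y k c) • Finsupp.single c (1 : K) := by
        rw [Finsupp.smul_single, smul_eq_mul, mul_one]
      rw [h2, map_smul, smul_eq_mul]
    rw [h1]
    exact Ideal.sum_mem _ fun c _ => Ideal.mul_mem_right _ _ (Ideal.subset_span ⟨k, c, rfl⟩)
  generalize hI : Ideal.span {t : K | ∃ k c, y k c = t} = I at hy ⊢
  rw [← Ideal.Quotient.eq_zero_iff_mem, RingHom.map_det]
  let A : Matrix (Fin (N + 1)) (Fin (N + 1)) (K ⧸ I) := Matrix.of fun k j =>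
    Fin.lastCases (motive := fun _ => K ⧸ I) 0 (fun j => Ideal.Quotient.mk I (κ k j)) j
  let B : Matrix (Fin (N + 1)) (Fin (N + 1)) (K ⧸ I) := Matrix.of fun j i =>
    Fin.lastCases (motive := fun _ => K ⧸ I) 0 (fun j => Ideal.Quotient.mk I (lam i (v j))) j
  have hAB : (Ideal.Quotient.mk I).mapMatrix
      (Matrix.of fun k i : Fin (N + 1) => lam i (x k)) = A * B := by
    ext k i
    rw [Matrix.mul_apply, Fin.sum_univ_castSucc]
    simp only [A, B, Matrix.of_apply, Fin.lastCases_castSucc, Fin.lastCases_last, mul_zero,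
      add_zero, RingHom.mapMatrix_apply, Matrix.map_apply]
    rw [h k, map_add, map_add, Ideal.Quotient.eq_zero_iff_mem.2 (hy i k), add_zero, map_sum,
      map_sum]
    refine Finset.sum_congr rfl fun j _ => ?_
    rw [map_smul, smul_eq_mul, map_mul]
  rw [hAB, Matrix.det_mul, Matrix.det_eq_zero_of_column_eq_zero (Fin.last N), zero_mul]
  intro k
  simp only [A, Matrix.of_apply, Fin.lastCases_last]

end Pool.Agent.R685.SJ
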