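import Pool.Agent.R685.SJ.Stm

set_option autoImplicit false
set_option linter.unusedSectionVars false

/-!
STAR: the test polynomial vanishes on the special elements.
-/

namespace Pool.Agent.R685.SJ

open Pool.Agent.H163R3 Pool.Agent.R685 TensorProduct

universe u

namespace StarAux

variable {F : Type u} [Field F] {G : Type u} [Ring G] [Algebra F G]

theorem one_mem (e : ℕ → G) : (1 : G) ∈ Gw F e 0 0 :=
  Submodule.subset_span ⟨[], by simp, by simp, by simp [gw]⟩

theorem tmul_mem_BG (e : ℕ → G) {a b : ZMod 2} {g g' : G} (hg : g ∈ Gw F e 0 a)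
    (hg' : g' ∈ Gw F e 0 b) : g ⊗ₜ[F] g' ∈ BG (F := F) e a b :=
  Submodule.subset_span ⟨g, hg, g', hg', rfl⟩

theorem z2 (p : ZMod 2) : p = 0 ∨ p = 1 := by
  revert p; decide

theorem js_wv {B : Type u} [NonUnitalNonAssocRing B] [Module F B] [IsScalarTower F B B]
    [SMulCommClass F B B] {B' : Type u} [NonUnitalNonAssocRing B'] [Module F B']
    [IsScalarTower F B' B'] [SMulCommClass F B' B'] (T : B →ₙₐ[F] B') {N : ℕ} (φ : Fin N → B)
    (w : FreeMagma (Fin N)) : T (wv φ w) = wv (fun i => T (φ i)) w := by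
  induction w with
  | ih1 i => rfl
  | ih2 s t h1 h2 =>
    show T (wv φ s * wv φ t) = wv (fun i => T (φ i)) s * wv (fun i => T (φ i)) t
    rw [map_mul, h1, h2]

end StarAux

open StarAux in
theorem t_STAR (hPSI : S_PSI.{u}) (hWORD : S_WORD.{u}) (hBIG : S_BIG.{u}) (hDET : S_DET.{u}) :
    S_STAR.{u} := by
  intro F _ _ G _ _ e he N par φ hφ Z hZ
  classical
  obtain ⟨Ψ1, Ψ, hinj, h1, h2⟩ := hPSI F G
  obtain ⟨⟨K, hKc, hK⟩, o01, o10⟩ := hBIG F G e he
  -- membership in K
  have hK' : ∀ x, x ∈ K ↔ x ∈ BG (F := F) e 0 0 ⊔ BG (F := F) e 1 1 := by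
    intro x; rw [← hK]; rfl
  have hBK : ∀ p : ZMod 2, ∀ x ∈ BG (F := F) e p p, x ∈ K := by
    intro p x hx
    rw [hK']
    rcases z2 p with rfl | rfl
    · exact Submodule.mem_sup_left hx
    · exact Submodule.mem_sup_right hx
  set y : Fin N → JR G := fun i => Ψ1 (φ i) with hy
  have hyy : ∀ i, js (y i) ∈ Gw F e 0 (par i) ∧ ∀ c, jv (y i) c ∈ Gw F e 0 (par i) := by
    intro i
    have h := hφ i
    simp only [hy]
    unfold TB at h
    generalize φ i = z at h
    induction h using Submodule.span_induction with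
    | mem x hx =>
      obtain ⟨g, hg, b, rfl⟩ := hx
      refine ⟨?_, fun c => ?_⟩
      · rw [(h1 g b).1]; exact Submodule.smul_mem _ _ hg
      · rw [(h1 g b).2 c]; exact Submodule.smul_mem _ _ hg
    | zero =>
      refine ⟨?_, fun c => ?_⟩
      · rw [map_zero]; exact Submodule.zero_mem _
      · rw [map_zero]; exact Submodule.zero_mem _
    | add x x' _ _ hx hx' =>
      refine ⟨?_, fun c => ?_⟩
      · rw [map_add, js_add]; exact Submodule.add_mem _ hx.1 hx'.1
      · rw [map_add, jv_add, Finsupp.add_apply]; exact Submodule.add_mem _ (hx.2 c) (hx'.2 c)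
    | smul r x _ hx =>
      refine ⟨?_, fun c => ?_⟩
      · rw [map_smul, js_smul]; exact Submodule.smul_mem _ _ hx.1
      · rw [map_smul, jv_smul, Finsupp.smul_apply]; exact Submodule.smul_mem _ _ (hx.2 c)
  have hw := hWORD F G e he N par y (fun i => (hyy i).1) (fun i => (hyy i).2)
  -- the coordinates of a special element
  have key : ∀ t ∈ Submodule.span F {t : G ⊗[F] (G ⊗[F] (JR F)) | ∃ w : FreeMagma (Fin N),
      ∃ g ∈ Gw F e 0 (wp par w), g ⊗ₜ[F] (wv φ w) = t},
      js (Ψ t) ∈ K ∧ (∀ c, jv (Ψ t) c ∈ K) ∧ ∃ κ : Fin N → G ⊗[F] G,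
        (∀ c, jv (Ψ t) c = ∑ i, κ i * ((1 : G) ⊗ₜ[F] jv (y i) c)) ∧
        (∀ i, par i = 0 → κ i ∈ K) ∧
        (∀ i, par i = 1 → κ i ∈ BG (F := F) e 0 1 ⊔ BG (F := F) e 1 0) := by
    intro t ht
    induction ht using Submodule.span_induction with
    | mem x hx =>
      obtain ⟨w, g, hg, rfl⟩ := hx
      obtain ⟨hw1, β, hβ, hw2⟩ := hw w
      have e1 : Ψ1 (wv φ w) = wv y w := js_wv Ψ1 φ w
      refine ⟨?_, ?_, fun i => g ⊗ₜ[F] β i, ?_, ?_, ?_⟩
      · rw [(h2 g _).1, e1]
        exact hBK _ _ (tmul_mem_BG e hg hw1)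
      · intro c
        rw [(h2 g _).2 c, e1, hw2 c]
        refine hBK _ _ (tmul_mem_BG e hg ?_)
        refine Submodule.sum_mem _ fun i _ => ?_
        have := Gw_mul F e (hβ i) ((hyy i).2 c)
        have e2 : wp par w + par i + par i = wp par w := by
          rw [add_assoc, CharTwo.add_self_eq_zero, add_zero]
        rwa [e2] at this
      · intro c
        rw [(h2 g _).2 c, e1, hw2 c, TensorProduct.tmul_sum]
        refine Finset.sum_congr rfl fun i _ => ?_
        rw [Algebra.TensorProduct.tmul_mul_tmul, mul_one]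
      · intro i hi
        have := hβ i
        rw [hi, add_zero] at this
        exact hBK _ _ (tmul_mem_BG e hg this)
      · intro i hi
        have := hβ i
        rw [hi] at this
        rcases z2 (wp par w) with h0 | h0
        · rw [h0] at hg this
          exact Submodule.mem_sup_left (tmul_mem_BG e hg (by simpa using this))
        · rw [h0] at hg this
          rw [show (1 : ZMod 2) + 1 = 0 from by decide] at this
          exact Submodule.mem_sup_right (tmul_mem_BG e hg this)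
    | zero =>
      refine ⟨?_, fun c => ?_, fun _ => 0, fun c => ?_, fun i _ => K.zero_mem,
        fun i _ => Submodule.zero_mem _⟩
      · rw [map_zero]; exact K.zero_mem
      · rw [map_zero]; exact K.zero_mem
      · rw [map_zero]; simp
    | add x x' _ _ hx hx' =>
      obtain ⟨a1, a2, κ, a3, a4, a5⟩ := hx
      obtain ⟨b1, b2, κ', b3, b4, b5⟩ := hx'
      refine ⟨?_, fun c => ?_, fun i => κ i + κ' i, fun c => ?_, fun i hi => ?_, fun i hi => ?_⟩
      · rw [map_add, js_add]; exact K.add_mem a1 b1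
      · rw [map_add, jv_add, Finsupp.add_apply]; exact K.add_mem (a2 c) (b2 c)
      · rw [map_add, jv_add, Finsupp.add_apply, a3 c, b3 c, ← Finset.sum_add_distrib]
        refine Finset.sum_congr rfl fun i _ => ?_
        rw [add_mul]
      · exact K.add_mem (a4 i hi) (b4 i hi)
      · exact Submodule.add_mem _ (a5 i hi) (b5 i hi)
    | smul r x _ hx =>
      obtain ⟨a1, a2, κ, a3, a4, a5⟩ := hx
      refine ⟨?_, fun c => ?_, fun i => r • κ i, fun c => ?_, fun i hi => ?_, fun i hi => ?_⟩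
      · rw [map_smul, js_smul]; exact K.smul_mem a1 r
      · rw [map_smul, jv_smul, Finsupp.smul_apply]; exact K.smul_mem (a2 c) r
      · rw [map_smul, jv_smul, Finsupp.smul_apply, a3 c, Finset.smul_sum]
        refine Finset.sum_congr rfl fun i _ => ?_
        rw [smul_mul_assoc]
      · exact K.smul_mem (a4 i hi) r
      · exact Submodule.smul_mem _ _ (a5 i hi)
  choose k1 k2 κ k3 k4 k5 using fun k => key _ (hZ k)
  have hab : ∀ k i, ∃ ab : (G ⊗[F] G) × (G ⊗[F] G), par i = 1 →
      κ k i = ab.1 + ab.2 ∧ ab.1 ∈ BG (F := F) e 0 1 ∧ ab.2 ∈ BG (F := F) e 1 0 := by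
    intro k i
    by_cases hi : par i = 1
    · obtain ⟨a, ha, b, hb, hab⟩ := Submodule.mem_sup.1 (k5 k i hi)
      exact ⟨(a, b), fun _ => ⟨hab.symm, ha, hb⟩⟩
    · exact ⟨(0, 0), fun h => absurd h hi⟩
  choose ab hab using hab
  have hfin := hDET F (G ⊗[F] G) K hKc N (Ψ.comp Z) (fun i => par i = 1) κ
    (fun k i => (ab k i).1) (fun k i => (ab k i).2)
    (fun i => (jv (y i)).mapRange (fun x => (1 : G) ⊗ₜ[F] x) (TensorProduct.tmul_zero _ _))
    (fun k => k1 k) (fun k c => k2 k c) (fun k c => ?_) (fun k i hi => ?_) (fun i c hi => ?_)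
    (fun k i hi => (hab k i hi).1)
    (fun k i hi r => o01 _ (hab k i hi).2.1 r) (fun k i hi r => o10 _ (hab k i hi).2.2 r)
  · apply hinj
    rw [map_zero]
    exact hfin
  · rw [show (Ψ.comp Z) (X F k) = Ψ (Z (X F k)) from rfl, k3 k c]
    refine Finset.sum_congr rfl fun i _ => ?_
    rw [Finsupp.mapRange_apply]
  · exact k4 k i ((z2 (par i)).resolve_right hi)
  · rw [Finsupp.mapRange_apply]
    have h0 : par i = 0 := (z2 (par i)).resolve_right hi
    have h3 := (hyy i).2 c
    rw [h0] at h3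
    exact hBK 0 _ (tmul_mem_BG e (one_mem e) h3)

end Pool.Agent.R685.SJ
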