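import Pool.Agent.R685.SJ.Stm

set_option autoImplicit false

/-!
Piece SUPA: identities pass from `G ⊗ B` to `G ⊗ B'` for `B'` in the variety generated by `B`.
-/

namespace Pool.Agent.R685.SJ

open Pool.Agent.H163R3 Pool.Agent.R685 TensorProduct

universe u

section SUPA_sec

variable {F : Type u} [Field F] {G : Type u} [Ring G] [Algebra F G]

/-- `id ⊗ θ` -/
noncomputable def supaT (G : Type u) [Ring G] [Algebra F G]
    {C : Type u} [NonUnitalNonAssocRing C] [Module F C] [IsScalarTower F C C] [SMulCommClass F C C]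
    {D : Type u} [NonUnitalNonAssocRing D] [Module F D] [IsScalarTower F D D] [SMulCommClass F D D]
    (θ : C →ₙₐ[F] D) : G ⊗[F] C →ₙₐ[F] G ⊗[F] D where
  toFun := LinearMap.lTensor G (θ : C →ₗ[F] D)
  map_smul' c x := map_smul _ c x
  map_zero' := map_zero _
  map_add' x y := map_add _ x y
  map_mul' x y := by
    induction x using TensorProduct.induction_on with
    | zero => rw [zero_mul, map_zero, zero_mul]
    | add a b ha hb => rw [add_mul, map_add, ha, hb, map_add, add_mul]
    | tmul g c =>
      induction y using TensorProduct.induction_on with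
      | zero => rw [mul_zero, map_zero, mul_zero]
      | add a b ha hb => rw [mul_add, map_add, ha, hb, map_add, mul_add]
      | tmul g' c' =>
        rw [Algebra.TensorProduct.tmul_mul_tmul, LinearMap.lTensor_tmul, LinearMap.lTensor_tmul,
          LinearMap.lTensor_tmul, Algebra.TensorProduct.tmul_mul_tmul]
        congr 1
        exact map_mul θ c c'

theorem supaT_tmul
    {C : Type u} [NonUnitalNonAssocRing C] [Module F C] [IsScalarTower F C C] [SMulCommClass F C C]
    {D : Type u} [NonUnitalNonAssocRing D] [Module F D] [IsScalarTower F D D] [SMulCommClass F D D]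
    (θ : C →ₙₐ[F] D) (g : G) (c : C) : supaT G θ (g ⊗ₜ[F] c) = g ⊗ₜ[F] θ c := rfl

/-- evaluation of a functional on the left factor -/
noncomputable def supaL {D : Type u} [AddCommGroup D] [Module F D] (l : G →ₗ[F] F) :
    G ⊗[F] D →ₗ[F] D := (TensorProduct.lid F D).toLinearMap ∘ₗ l.rTensor D

theorem supaL_tmul {D : Type u} [AddCommGroup D] [Module F D] (l : G →ₗ[F] F) (g : G) (x : D) :
    supaL l (g ⊗ₜ[F] x) = l g • x := by
  simp [supaL]

theorem supaL_nat
    {C : Type u} [NonUnitalNonAssocRing C] [Module F C] [IsScalarTower F C C] [SMulCommClass F C C]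
    {D : Type u} [NonUnitalNonAssocRing D] [Module F D] [IsScalarTower F D D] [SMulCommClass F D D]
    (θ : C →ₙₐ[F] D) (l : G →ₗ[F] F) (w : G ⊗[F] C) :
    θ (supaL l w) = supaL l (supaT G θ w) := by
  induction w using TensorProduct.induction_on with
  | zero => rw [map_zero, map_zero, map_zero, map_zero]
  | add a b ha hb => rw [map_add, map_add, ha, hb, map_add, map_add]
  | tmul g c => rw [supaT_tmul, supaL_tmul, supaL_tmul, map_smul]

theorem supaL_inj {D : Type u} [AddCommGroup D] [Module F D] (w : G ⊗[F] D)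
    (h : ∀ l : G →ₗ[F] F, supaL l w = 0) : w = 0 := by
  classical
  let b := Module.Basis.ofVectorSpace F G
  have e : ∀ (w' : G ⊗[F] D) (i), (TensorProduct.equivFinsuppOfBasisLeft b w') i =
      supaL (b.coord i) w' := by
    intro w' i
    induction w' using TensorProduct.induction_on with
    | zero => rw [map_zero, map_zero, Finsupp.zero_apply]
    | add x y hx hy => rw [map_add, map_add, Finsupp.add_apply, hx, hy]
    | tmul g d =>
      rw [TensorProduct.equivFinsuppOfBasisLeft_apply_tmul_apply, supaL_tmul]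
      rfl
  apply (TensorProduct.equivFinsuppOfBasisLeft (N := D) b).injective
  rw [map_zero]
  ext i
  rw [e w i, h, Finsupp.zero_apply]

end SUPA_sec

theorem t_SUPA : S_SUPA.{u} := by
  classical
  intro F _ G _ _ N W B _ _ _ _ B' _ _ _ _ p hvar hB ψ hψ
  -- finite representations
  have hrep : ∀ i, ∃ (n : ℕ) (c : Fin n → F) (g : Fin n → G) (b : Fin n → B'),
      (∀ t, g t ∈ W i) ∧ ∑ t, c t • (g t ⊗ₜ[F] b t) = ψ (FreeNonUnitalNonAssocAlgebra.of F i) := by
    intro i
    obtain ⟨n, c, s, hs⟩ := Submodule.mem_span_set'.1 (hψ i)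
    choose g hg b hb using fun t => (s t).2
    refine ⟨n, c, g, b, hg, ?_⟩
    rw [← hs]
    exact Finset.sum_congr rfl fun t _ => by rw [hb t]
  choose n c g b hg hsum using hrep
  let z : ℕ → B' := fun k =>
    match (Encodable.decode k : Option (Σ i : Fin N, Fin (n i))) with
    | some q => b q.1 q.2
    | none => 0
  have hz : ∀ i t, z (Encodable.encode (⟨i, t⟩ : Σ i : Fin N, Fin (n i))) = b i t := by
    intro i t
    simp only [z, Encodable.encodek]
  let θ' : Fr F →ₙₐ[F] B' := FreeNonUnitalNonAssocAlgebra.lift F z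
  have hθ' : ∀ k, θ' (X F k) = z k := fun k => FreeNonUnitalNonAssocAlgebra.lift_of_apply F z k
  let v : Fin N → G ⊗[F] Fr F := fun i =>
    ∑ t, c i t • (g i t ⊗ₜ[F] X F (Encodable.encode (⟨i, t⟩ : Σ i : Fin N, Fin (n i))))
  let ψg : PN F N →ₙₐ[F] G ⊗[F] Fr F := FreeNonUnitalNonAssocAlgebra.lift F v
  have hψg : ∀ i, ψg (FreeNonUnitalNonAssocAlgebra.of F i) = v i := fun i =>
    FreeNonUnitalNonAssocAlgebra.lift_of_apply F v i
  have hcomp : (supaT G θ').comp ψg = ψ := by
    apply FreeNonUnitalNonAssocAlgebra.hom_ext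
    intro i
    show supaT G θ' (ψg (FreeNonUnitalNonAssocAlgebra.of F i)) =
      ψ (FreeNonUnitalNonAssocAlgebra.of F i)
    rw [hψg, ← hsum i, map_sum]
    refine Finset.sum_congr rfl fun t _ => ?_
    rw [map_smul, supaT_tmul, hθ', hz]
  have hP : ∀ θ : Fr F →ₙₐ[F] B, supaT G θ (ψg p) = 0 := by
    intro θ
    refine hB ((supaT G θ).comp ψg) fun i => ?_
    show supaT G θ (ψg (FreeNonUnitalNonAssocAlgebra.of F i)) ∈ TB (W i) B
    rw [hψg, map_sum]
    refine Submodule.sum_mem _ fun t _ => ?_
    rw [map_smul, supaT_tmul]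
    exact Submodule.smul_mem _ _ (Submodule.subset_span ⟨g i t, hg i t, _, rfl⟩)
  rw [← hcomp]
  show supaT G θ' (ψg p) = 0
  refine supaL_inj _ fun l => ?_
  rw [← supaL_nat]
  refine hvar _ ?_ θ'
  intro θ
  rw [supaL_nat, hP, map_zero]

end Pool.Agent.R685.SJ
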