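import Pool.Agent.R685.SJ.Stm

set_option autoImplicit false
set_option linter.unusedSectionVars false
set_option maxHeartbeats 4000000
set_option synthInstance.maxHeartbeats 400000

/-!
Project SJ (helper685), piece SUPB: from `G ⊗ Env` to the superalgebra (helper711).
-/

namespace Pool.Agent.R685.SJ

open Pool.Agent.H163R3 Pool.Agent.R685 TensorProduct

universe u

namespace SUPB

theorem pn_induction {F : Type u} [Field F] {N : ℕ} {P : PN F N → Prop}
    (hof : ∀ i, P (FreeNonUnitalNonAssocAlgebra.of F i))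
    (h0 : P 0) (hadd : ∀ p q, P p → P q → P (p + q))
    (hmul : ∀ p q, P p → P q → P (p * q)) (hsmul : ∀ (c : F) (p), P p → P (c • p))
    (p : PN F N) : P p := by
  let S : NonUnitalSubalgebra F (PN F N) :=
    { carrier := {p | P p}
      zero_mem' := h0
      add_mem' := fun ha hb => hadd _ _ ha hb
      mul_mem' := fun ha hb => hmul _ _ ha hb
      smul_mem' := fun c _ h => hsmul c _ h }
  let φ : PN F N →ₙₐ[F] S := FreeNonUnitalNonAssocAlgebra.lift F
    (fun i => (⟨FreeNonUnitalNonAssocAlgebra.of F i, hof i⟩ : S))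
  have h : (NonUnitalSubalgebraClass.subtype S).comp φ = NonUnitalAlgHom.id F (PN F N) := by
    apply FreeNonUnitalNonAssocAlgebra.hom_ext
    intro i
    simp [φ]
  have h2 := DFunLike.congr_fun h p
  have h3 : ((φ p : S) : PN F N) = p := h2
  rw [← h3]
  exact (φ p).2

theorem bin {R : Type*} [Ring R] (a b : R) (hc : b * a = a * b) (hb : b * b = 0) :
    ∀ n : ℕ, (a + b) ^ (n + 1) = a ^ (n + 1) + (n + 1) • (a ^ n * b) := by
  intro n
  induction n with
  | zero => simp
  | succ n ih =>
    have e1 : a ^ n * b * a = a ^ (n + 1) * b := by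
      rw [mul_assoc, hc, ← mul_assoc, ← pow_succ]
    have e2 : a ^ n * b * b = 0 := by rw [mul_assoc, hb, mul_zero]
    rw [pow_succ (a + b), ih, add_mul, mul_add, smul_mul_assoc, mul_add, e1, e2, add_zero,
      ← pow_succ, add_assoc, ← succ_nsmul']

theorem theta {R : Type*} [Ring R] (θ : ℕ → R) (hc : ∀ i j, θ i * θ j = θ j * θ i)
    (h0 : ∀ i, θ i * θ i = 0) (T : ℕ) :
    (∑ t ∈ Finset.range T, θ t) ^ (T + 1) = 0 ∧
    (∑ t ∈ Finset.range T, θ t) ^ T = T.factorial • ((List.range T).map θ).prod := by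
  induction T with
  | zero => simp
  | succ T ih =>
    have hcc : θ T * (∑ t ∈ Finset.range T, θ t) = (∑ t ∈ Finset.range T, θ t) * θ T := by
      rw [Finset.mul_sum, Finset.sum_mul]
      exact Finset.sum_congr rfl fun t _ => hc _ _
    rw [Finset.sum_range_succ]
    constructor
    · rw [bin _ _ hcc (h0 T), pow_succ, ih.1]
      simp
    · rw [bin _ _ hcc (h0 T), ih.1, ih.2, zero_add, List.range_succ, List.map_append,
        List.prod_append, smul_mul_assoc, smul_smul, Nat.factorial_succ]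
      simp

theorem tri {F V : Type*} [Field F] [AddCommGroup V] [Module F V] (T : ℕ) (c : ℕ → F)
    (hc : c T ≠ 0) (hc0 : ∀ n, T < n → c n = 0) {J : Type} [Fintype J] (w : J → ℕ)
    (hw : ∀ j, w j ≤ T) (a : J → V) (h : ∀ k ≤ T, ∑ j, c (T - k + w j) • a j = 0) :
    ∑ j, a j = 0 := by
  classical
  set A : ℕ → V := fun l => ∑ j, if w j = l then a j else 0 with hA
  have h1 : ∀ f : ℕ → F, ∑ j, f (w j) • a j = ∑ l ∈ Finset.range (T + 1), f l • A l := by
    intro f
    simp only [hA, Finset.smul_sum]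
    rw [Finset.sum_comm]
    refine Finset.sum_congr rfl fun j _ => ?_
    rw [Finset.sum_eq_single (w j)]
    · simp
    · intro l _ hl
      rw [if_neg (Ne.symm hl), smul_zero]
    · intro hj
      exact absurd (Finset.mem_range.2 (Nat.lt_succ_of_le (hw j))) hj
  have h2 : ∀ k, k ≤ T → A k = 0 := by
    intro k
    induction k using Nat.strong_induction_on with
    | _ k ih =>
      intro hk
      have h3 := h k hk
      rw [h1 (fun n => c (T - k + n)), Finset.sum_eq_single k] at h3
      · have e : T - k + k = T := by omega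
        rw [e] at h3
        exact (smul_eq_zero.mp h3).resolve_left hc
      · intro l hl hlk
        rcases lt_or_gt_of_ne hlk with h4 | h4
        · rw [ih l h4 (by omega), smul_zero]
        · rw [hc0 _ (by omega), zero_smul]
      · intro hk'
        exact absurd (Finset.mem_range.2 (Nat.lt_succ_of_le hk)) hk'
  have h5 := h1 (fun _ => 1)
  simp only [one_smul] at h5
  rw [h5]
  refine Finset.sum_eq_zero fun l hl => h2 l ?_
  rw [Finset.mem_range] at hl
  omega

section main

variable {F : Type u} [Field F] {G : Type u} [Ring G] [Algebra F G]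
  {A' : Type u} [NonUnitalNonAssocRing A'] [Module F A'] [IsScalarTower F A' A']
  [SMulCommClass F A' A']

theorem tam (a b c : G ⊗[F] (G ⊗[F] A')) : (a + b) * c = a * c + b * c :=
  Distrib.right_distrib a b c

theorem tma (a b c : G ⊗[F] (G ⊗[F] A')) : a * (b + c) = a * b + a * c :=
  Distrib.left_distrib a b c

theorem tzm (a : G ⊗[F] (G ⊗[F] A')) : 0 * a = 0 :=
  NonUnitalNonAssocSemiring.zero_mul a

theorem tmz (a : G ⊗[F] (G ⊗[F] A')) : a * 0 = 0 :=
  NonUnitalNonAssocSemiring.mul_zero a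

theorem assoc_mul (x y : G ⊗[F] (G ⊗[F] A')) :
    (TensorProduct.assoc F G G A').symm (x * y) =
      (TensorProduct.assoc F G G A').symm x * (TensorProduct.assoc F G G A').symm y := by
  induction x using TensorProduct.induction_on with
  | zero => rw [tzm, map_zero, zero_mul]
  | add a b ha hb => rw [tam, map_add, map_add, add_mul, ha, hb]
  | tmul g s =>
    induction y using TensorProduct.induction_on with
    | zero => rw [tmz, map_zero, mul_zero]
    | add a b ha hb => rw [tma, map_add, map_add, mul_add, ha, hb]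
    | tmul g' s' =>
      induction s using TensorProduct.induction_on with
      | zero => rw [TensorProduct.tmul_zero, tzm, map_zero, zero_mul]
      | add a b ha hb =>
        rw [TensorProduct.tmul_add, tam, map_add, map_add, add_mul, ha, hb]
      | tmul h a =>
        induction s' using TensorProduct.induction_on with
        | zero => rw [TensorProduct.tmul_zero, tmz, map_zero, mul_zero]
        | add a b ha hb =>
          rw [TensorProduct.tmul_add, tma, map_add, map_add, mul_add, ha, hb]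
        | tmul h' a' =>
          rw [Algebra.TensorProduct.tmul_mul_tmul, Algebra.TensorProduct.tmul_mul_tmul,
            TensorProduct.assoc_symm_tmul, TensorProduct.assoc_symm_tmul,
            TensorProduct.assoc_symm_tmul, Algebra.TensorProduct.tmul_mul_tmul,
            Algebra.TensorProduct.tmul_mul_tmul]

variable {A : ZMod 2 → Submodule F A'} {e : ℕ → G}

/-- the linear inclusion -/
noncomputable def incl (m : ℕ) (hA : IsSuper F A) : Env e m A hA →ₗ[F] G ⊗[F] A' where
  toFun t := t.1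
  map_add' _ _ := rfl
  map_smul' _ _ := rfl

/-- the map to `(G ⊗ G) ⊗ A'` -/
noncomputable def KK (m : ℕ) (hA : IsSuper F A) :
    G ⊗[F] (Env e m A hA) →ₗ[F] (G ⊗[F] G) ⊗[F] A' :=
  ((TensorProduct.assoc F G G A').symm : G ⊗[F] (G ⊗[F] A') →ₗ[F] (G ⊗[F] G) ⊗[F] A') ∘ₗ
    LinearMap.lTensor G (incl m hA)

theorem KK_mul (m : ℕ) (hA : IsSuper F A) (x y : G ⊗[F] (Env e m A hA)) :
    KK m hA (x * y) = KK m hA x * KK m hA y := by
  have h1 : LinearMap.lTensor G (incl m hA) (x * y) =
      LinearMap.lTensor G (incl m hA) x * LinearMap.lTensor G (incl m hA) y := by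
    induction x using TensorProduct.induction_on with
    | zero => rw [zero_mul, map_zero, tzm]
    | add a b ha hb => rw [add_mul, map_add, map_add, tam, ha, hb]
    | tmul g s =>
      induction y using TensorProduct.induction_on with
      | zero => rw [mul_zero, map_zero, tmz]
      | add a b ha hb => rw [mul_add, map_add, map_add, tma, ha, hb]
      | tmul g' s' =>
        rw [Algebra.TensorProduct.tmul_mul_tmul, LinearMap.lTensor_tmul, LinearMap.lTensor_tmul,
          LinearMap.lTensor_tmul, Algebra.TensorProduct.tmul_mul_tmul]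
        rfl
  unfold KK
  simp only [LinearMap.comp_apply, LinearEquiv.coe_coe]
  rw [h1, assoc_mul]

theorem KK_tmul (m : ℕ) (hA : IsSuper F A) (g h : G) (a : A')
    (hm : h ⊗ₜ[F] a ∈ Env e m A hA) :
    KK m hA (g ⊗ₜ[F] (⟨h ⊗ₜ[F] a, hm⟩ : Env e m A hA)) = (g ⊗ₜ[F] h) ⊗ₜ[F] a := by
  unfold KK
  rw [LinearMap.comp_apply, LinearMap.lTensor_tmul]
  rfl

end main

section words

variable {F : Type u} [Field F] {G : Type u} [Ring G] [Algebra F G]

/-- disjoint words -/
noncomputable def ew (e : ℕ → G) (M t : ℕ) : G := gw e (List.range' (M * t) M)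

theorem ew_prod (e : ℕ → G) (M T : ℕ) :
    ((List.range T).map (ew e M)).prod = gw e (List.range (M * T)) := by
  induction T with
  | zero => simp [gw]
  | succ T ih =>
    rw [List.range_succ, List.map_append, List.prod_append, ih]
    simp only [List.map_cons, List.map_nil, List.prod_cons, List.prod_nil, mul_one]
    unfold ew
    rw [← gw_append]
    simp only [List.range_eq_range']
    have h := List.range'_append_1 (s := 0) (m := M * T) (n := M)
    rw [Nat.zero_add] at h
    rw [h, Nat.mul_succ]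

theorem ew_mem (e : ℕ → G) (m t : ℕ) : ew e (2 * m + 1) t ∈ Gw F e m 1 := by
  refine Submodule.subset_span ⟨List.range' ((2 * m + 1) * t) (2 * m + 1), ?_, ?_, rfl⟩
  · rw [List.length_range']
    omega
  · rw [List.length_range']
    push_cast
    have h : (2 : ZMod 2) = 0 := by decide
    rw [h, zero_mul, zero_add]

theorem tprod (f : ℕ → G) (l : List ℕ) :
    (l.map (fun t => f t ⊗ₜ[F] f t)).prod = (l.map f).prod ⊗ₜ[F] (l.map f).prod := by
  induction l with
  | nil => simp [Algebra.TensorProduct.one_def]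
  | cons t l ih =>
    rw [List.map_cons, List.prod_cons, ih, Algebra.TensorProduct.tmul_mul_tmul, List.map_cons,
      List.prod_cons]

end words

end SUPB

open SUPB in
theorem t_SUPB : S_SUPB.{u} := by
  intro F _ _ G _ _ e he m A' _ _ _ _ A hA N par x hx p H
  have hM1 : ∀ t, ew e (2 * m + 1) t ∈ Gw F e m 1 := fun t => ew_mem e m t
  have hM0 : ∀ t, ew e (2 * m + 1) t ∈ Gw F e 0 1 := fun t => Gw_mono (hM1 t)
  set w1 : ℕ → G := fun t => ew e (2 * m + 1) t with hw1
  set θ : ℕ → G ⊗[F] G := fun t => w1 t ⊗ₜ[F] w1 t with hθ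
  have hθc : ∀ i j, θ i * θ j = θ j * θ i := by
    intro i j
    simp only [hθ]
    rw [Algebra.TensorProduct.tmul_mul_tmul, Algebra.TensorProduct.tmul_mul_tmul,
      Gw1_anti he (hM0 i) (hM0 j), TensorProduct.neg_tmul, TensorProduct.tmul_neg, neg_neg]
  have hθ0 : ∀ i, θ i * θ i = 0 := by
    intro i
    simp only [hθ]
    rw [Algebra.TensorProduct.tmul_mul_tmul, Gw1_sq he (hM0 i), TensorProduct.zero_tmul]
  set Θ : ℕ → G ⊗[F] G := fun T => ∑ t ∈ Finset.range T, θ t with hΘ
  have hy : ∀ (T : ℕ) (i : Fin N), ∃ y : G ⊗[F] (Env e m A hA),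
      y ∈ TB (Gw F e 0 (par i)) (Env e m A hA) ∧
      KK m hA y = (Θ T ^ (2 - (par i).val)) ⊗ₜ[F] x i := by
    intro T i
    have hcase : par i = 1 ∨ par i = 0 := by
      generalize par i = z
      fin_cases z
      · right; rfl
      · left; rfl
    rcases hcase with h | h
    · have hm : ∀ t, w1 t ⊗ₜ[F] x i ∈ Env e m A hA := fun t =>
        Submodule.subset_span ⟨1, w1 t, hM1 t, x i, by rw [← h]; exact hx i, rfl⟩
      refine ⟨∑ t ∈ Finset.range T, w1 t ⊗ₜ[F] (⟨w1 t ⊗ₜ[F] x i, hm t⟩ : Env e m A hA), ?_, ?_⟩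
      · refine Submodule.sum_mem _ fun t _ => Submodule.subset_span ⟨w1 t, ?_, _, rfl⟩
        rw [h]
        exact hM0 t
      · rw [map_sum, h]
        have e1 : (2 - (1 : ZMod 2).val) = 1 := rfl
        rw [e1, pow_one, hΘ, TensorProduct.sum_tmul]
        exact Finset.sum_congr rfl fun t _ => KK_tmul m hA _ _ _ _
    · have hg : ∀ t u, w1 t * w1 u ∈ Gw F e m 0 := by
        intro t u
        have h3 := Gw_mul F e (hM1 t) (hM1 u)
        have e2 : (1 + 1 : ZMod 2) = 0 := by decide
        rwa [e2] at h3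
      have hm : ∀ t u, (w1 t * w1 u) ⊗ₜ[F] x i ∈ Env e m A hA := fun t u =>
        Submodule.subset_span ⟨0, w1 t * w1 u, hg t u, x i, by rw [← h]; exact hx i, rfl⟩
      refine ⟨∑ t ∈ Finset.range T, ∑ u ∈ Finset.range T,
        (w1 t * w1 u) ⊗ₜ[F] (⟨(w1 t * w1 u) ⊗ₜ[F] x i, hm t u⟩ : Env e m A hA), ?_, ?_⟩
      · refine Submodule.sum_mem _ fun t _ => Submodule.sum_mem _ fun u _ =>
          Submodule.subset_span ⟨w1 t * w1 u, ?_, _, rfl⟩
        rw [h]
        exact Gw_mono (hg t u)
      · rw [map_sum, h]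
        have e1 : (2 - (0 : ZMod 2).val) = 2 := rfl
        rw [e1, pow_two, hΘ, Finset.sum_mul_sum, TensorProduct.sum_tmul]
        refine Finset.sum_congr rfl fun t _ => ?_
        rw [map_sum, TensorProduct.sum_tmul]
        refine Finset.sum_congr rfl fun u _ => ?_
        rw [KK_tmul m hA, hθ, Algebra.TensorProduct.tmul_mul_tmul]
  choose y hy1 hy2 using hy
  set ψ : ℕ → PN F N →ₙₐ[F] G ⊗[F] (Env e m A hA) :=
    fun T => FreeNonUnitalNonAssocAlgebra.lift F (y T) with hψ
  have hψof : ∀ T i, ψ T (FreeNonUnitalNonAssocAlgebra.of F i) = y T i := by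
    intro T i
    simp [hψ]
  have key : ∀ q : PN F N, ∃ (J : Type) (_ : Fintype J) (w : J → ℕ) (a : J → A'),
      (∀ T, KK m hA (ψ T q) = ∑ j, (Θ T ^ (w j)) ⊗ₜ[F] a j) ∧
      FreeNonUnitalNonAssocAlgebra.lift F x q = ∑ j, a j := by
    intro q
    refine pn_induction (P := fun q => ∃ (J : Type) (_ : Fintype J) (w : J → ℕ) (a : J → A'),
      (∀ T, KK m hA (ψ T q) = ∑ j, (Θ T ^ (w j)) ⊗ₜ[F] a j) ∧
      FreeNonUnitalNonAssocAlgebra.lift F x q = ∑ j, a j) ?_ ?_ ?_ ?_ ?_ q
    · intro i
      refine ⟨Unit, inferInstance, fun _ => 2 - (par i).val, fun _ => x i, ?_, ?_⟩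
      · intro T
        rw [hψof, hy2]
        simp
      · simp
    · exact ⟨Empty, inferInstance, fun z => z.elim, fun z => z.elim, by simp, by simp⟩
    · rintro q q' ⟨J, hJ, w, a, h1, h2⟩ ⟨J', hJ', w', a', h1', h2'⟩
      refine ⟨J ⊕ J', inferInstance, Sum.elim w w', Sum.elim a a', ?_, ?_⟩
      · intro T
        rw [map_add, map_add, h1 T, h1' T, Fintype.sum_sum_type]
        rfl
      · rw [map_add, h2, h2', Fintype.sum_sum_type]
        rfl
    · rintro q q' ⟨J, hJ, w, a, h1, h2⟩ ⟨J', hJ', w', a', h1', h2'⟩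
      refine ⟨J × J', inferInstance, fun z => w z.1 + w' z.2, fun z => a z.1 * a' z.2, ?_, ?_⟩
      · intro T
        rw [map_mul, KK_mul, h1 T, h1' T, Fintype.sum_prod_type, Finset.sum_mul_sum]
        refine Finset.sum_congr rfl fun j _ => Finset.sum_congr rfl fun j' _ => ?_
        rw [Algebra.TensorProduct.tmul_mul_tmul, pow_add]
      · rw [map_mul, h2, h2', Fintype.sum_prod_type, Finset.sum_mul_sum]
    · rintro c q ⟨J, hJ, w, a, h1, h2⟩
      refine ⟨J, hJ, w, fun j => c • a j, ?_, ?_⟩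
      · intro T
        rw [map_smul, map_smul, h1 T, Finset.smul_sum]
        refine Finset.sum_congr rfl fun j _ => ?_
        rw [TensorProduct.tmul_smul]
      · rw [map_smul, h2, Finset.smul_sum]
  obtain ⟨J, hJ, w, a, h1, h2⟩ := key p
  set T : ℕ := ∑ j, w j with hT
  have hwT : ∀ j, w j ≤ T := fun j => Finset.single_le_sum (fun _ _ => Nat.zero_le _)
    (Finset.mem_univ j)
  obtain ⟨ψ1, hψ1⟩ := word_functional he ((2 * m + 1) * T)
  set Ψ : G ⊗[F] G →ₗ[F] F := (TensorProduct.lid F F).toLinearMap ∘ₗ TensorProduct.map ψ1 ψ1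
    with hΨ
  obtain ⟨ht1, ht2⟩ := theta θ hθc hθ0 T
  have hcT : Ψ (Θ T ^ T) ≠ 0 := by
    have e1 : Θ T ^ T = T.factorial • ((List.range T).map θ).prod := ht2
    have e2 : ((List.range T).map θ).prod =
        gw e (List.range ((2 * m + 1) * T)) ⊗ₜ[F] gw e (List.range ((2 * m + 1) * T)) := by
      rw [← ew_prod]
      exact tprod (F := F) (fun t => ew e (2 * m + 1) t) (List.range T)
    rw [e1, e2, map_nsmul, hΨ]
    simp only [LinearMap.comp_apply, TensorProduct.map_tmul, LinearEquiv.coe_coe,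
      TensorProduct.lid_tmul, hψ1]
    simp [Nat.factorial_ne_zero]
  have hc0 : ∀ n, T < n → Ψ (Θ T ^ n) = 0 := by
    intro n hn
    have e1 : Θ T ^ (T + 1) = 0 := ht1
    rw [pow_eq_zero_of_le hn e1, map_zero]
  rw [h2]
  refine tri T (fun n => Ψ (Θ T ^ n)) hcT hc0 w hwT a ?_
  intro k _
  have h3 : ∑ j, (Θ T ^ (w j)) ⊗ₜ[F] a j = 0 := by
    rw [← h1 T, H (ψ T) (fun i => by rw [hψof]; exact hy1 T i), map_zero]
  set lk : (G ⊗[F] G) ⊗[F] A' →ₗ[F] A' := (TensorProduct.lid F A').toLinearMap ∘ₗ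
    LinearMap.rTensor A' (Ψ ∘ₗ LinearMap.mulLeft F (Θ T ^ (T - k))) with hlk
  have h4 := congrArg lk h3
  rw [map_zero, map_sum] at h4
  rw [← h4]
  refine Finset.sum_congr rfl fun j _ => ?_
  rw [hlk]
  simp only [LinearMap.comp_apply, LinearMap.rTensor_tmul, LinearEquiv.coe_coe,
    TensorProduct.lid_tmul, LinearMap.mulLeft_apply, pow_add]

end Pool.Agent.R685.SJ
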