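import Pool.Agent.R685.SJ.Stm

set_option autoImplicit false
set_option linter.unusedSectionVars false

namespace Pool.Agent.R685.SJ

open Pool.Agent.H163R3 Pool.Agent.R685 TensorProduct

universe u

namespace SUPCaux

variable {F : Type u} [Field F] {G : Type u} [Ring G] [Algebra F G]

section
variable {C D : Type u} [NonUnitalNonAssocRing C] [Module F C] [IsScalarTower F C C]
  [SMulCommClass F C C] [NonUnitalNonAssocRing D] [Module F D] [IsScalarTower F D D]
  [SMulCommClass F D D]

/-- the underlying linear map -/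
noncomputable def lm (Φ : C →ₙₐ[F] D) : C →ₗ[F] D where
  toFun := Φ
  map_add' := map_add Φ
  map_smul' := map_smul Φ

variable (G) in
/-- `id ⊗ Φ` -/
noncomputable def idT (Φ : C →ₙₐ[F] D) : G ⊗[F] C →ₙₐ[F] G ⊗[F] D where
  toFun := LinearMap.lTensor G (lm Φ)
  map_smul' := map_smul _
  map_zero' := map_zero _
  map_add' := map_add _
  map_mul' x y := by
    induction x using TensorProduct.induction_on with
    | zero => rw [zero_mul, map_zero, zero_mul]
    | add a b ha hb => rw [add_mul, map_add, ha, hb, map_add, add_mul]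
    | tmul g c =>
      induction y using TensorProduct.induction_on with
      | zero => rw [mul_zero, map_zero, mul_zero]
      | add a b ha hb => rw [mul_add, map_add, ha, hb, map_add, mul_add]
      | tmul g' c' =>
        rw [Algebra.TensorProduct.tmul_mul_tmul, LinearMap.lTensor_tmul, LinearMap.lTensor_tmul,
          LinearMap.lTensor_tmul, Algebra.TensorProduct.tmul_mul_tmul]
        congr 1
        exact map_mul Φ c c'

theorem idT_tmul (Φ : C →ₙₐ[F] D) (g : G) (c : C) : idT G Φ (g ⊗ₜ[F] c) = g ⊗ₜ[F] (Φ c) := rfl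

variable (C) in
/-- `l ⊗ id` -/
noncomputable def lT (l : G →ₗ[F] F) : G ⊗[F] C →ₗ[F] C :=
  (TensorProduct.lid F C).toLinearMap ∘ₗ LinearMap.rTensor C l

theorem lT_tmul (l : G →ₗ[F] F) (g : G) (c : C) : lT C l (g ⊗ₜ[F] c) = l g • c := by
  simp [lT]

theorem lT_nat (l : G →ₗ[F] F) (Φ : C →ₙₐ[F] D) (t : G ⊗[F] C) :
    lT D l (idT G Φ t) = Φ (lT C l t) := by
  induction t using TensorProduct.induction_on with
  | zero => rw [map_zero, map_zero, map_zero, map_zero]
  | add a b ha hb => rw [map_add, map_add, ha, hb, map_add, map_add]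
  | tmul g c => rw [idT_tmul, lT_tmul, lT_tmul, map_smul]

theorem lT_zero (t : G ⊗[F] C) (h : ∀ l : G →ₗ[F] F, lT C l t = 0) : t = 0 := by
  classical
  set b := Module.Basis.ofVectorSpace F G
  apply (TensorProduct.equivFinsuppOfBasisLeft (N := C) b).injective
  rw [map_zero]
  ext i
  rw [TensorProduct.equivFinsuppOfBasisLeft_apply]
  exact h (b.coord i)

end

section
variable {N : ℕ}

theorem wv_map {C D : Type u} [NonUnitalNonAssocRing C] [Module F C]
    [NonUnitalNonAssocRing D] [Module F D]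
    (Φ : C →ₙₐ[F] D) (y : Fin N → C) (w : FreeMagma (Fin N)) :
    Φ (wv y w) = wv (fun i => Φ (y i)) w := by
  induction w with
  | ih1 i => rfl
  | ih2 s t hs ht =>
    show Φ (wv y s * wv y t) = wv (fun i => Φ (y i)) s * wv (fun i => Φ (y i)) t
    rw [map_mul, hs, ht]

variable {A' : Type u} [NonUnitalNonAssocRing A'] [Module F A'] [IsScalarTower F A' A']
  [SMulCommClass F A' A'] {A : ZMod 2 → Submodule F A'}

/-- span of the words of parity `q` -/
def SW (F : Type u) [Field F] {A' : Type u} [NonUnitalNonAssocRing A'] [Module F A']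
    (par : Fin N → ZMod 2) (x : Fin N → A') (q : ZMod 2) : Submodule F A' :=
  Submodule.span F {t | ∃ w : FreeMagma (Fin N), wp par w = q ∧ wv x w = t}

theorem word_mem (hA : IsSuper F A) (par : Fin N → ZMod 2) (x : Fin N → A')
    (hx : ∀ i, x i ∈ A (par i)) (w : FreeMagma (Fin N)) : wv x w ∈ A (wp par w) := by
  induction w with
  | ih1 i => exact hx i
  | ih2 s t hs ht => exact hA.mul _ _ _ hs _ ht

theorem SW_le (hA : IsSuper F A) (par : Fin N → ZMod 2) (x : Fin N → A')
    (hx : ∀ i, x i ∈ A (par i)) (q : ZMod 2) : SW F par x q ≤ A q := by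
  refine Submodule.span_le.2 ?_
  rintro _ ⟨w, rfl, rfl⟩
  exact word_mem hA par x hx w

theorem words_top (x : Fin N → A') (hadj : NonUnitalAlgebra.adjoin F (Set.range x) = ⊤) :
    Submodule.span F (Set.range (wv x : FreeMagma (Fin N) → A')) = ⊤ := by
  rw [eq_top_iff]
  rintro a -
  have ha : a ∈ NonUnitalAlgebra.adjoin F (Set.range x) := by rw [hadj]; trivial
  induction ha using NonUnitalAlgebra.adjoin_induction with
  | mem y hy =>
    obtain ⟨i, rfl⟩ := hy
    exact Submodule.subset_span ⟨FreeMagma.of i, rfl⟩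
  | add y z _ _ h1 h2 => exact Submodule.add_mem _ h1 h2
  | zero => exact Submodule.zero_mem _
  | smul r y _ h => exact Submodule.smul_mem _ _ h
  | mul y z _ _ h1 h2 =>
    clear * - h1 h2
    induction h1 using Submodule.span_induction with
    | zero => rw [zero_mul]; exact Submodule.zero_mem _
    | add p q _ _ h3 h4 => rw [add_mul]; exact Submodule.add_mem _ h3 h4
    | smul k p _ h => rw [smul_mul_assoc]; exact Submodule.smul_mem _ _ h
    | mem y hy =>
      obtain ⟨s, rfl⟩ := hy
      induction h2 using Submodule.span_induction with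
      | zero => rw [mul_zero]; exact Submodule.zero_mem _
      | add p q _ _ h3 h4 => rw [mul_add]; exact Submodule.add_mem _ h3 h4
      | smul k p _ h => rw [mul_smul_comm]; exact Submodule.smul_mem _ _ h
      | mem z hz =>
        obtain ⟨t, rfl⟩ := hz
        exact Submodule.subset_span ⟨FreeMagma.mul s t, rfl⟩

theorem SW_sup (par : Fin N → ZMod 2) (x : Fin N → A')
    (hadj : NonUnitalAlgebra.adjoin F (Set.range x) = ⊤) (a : A') :
    ∃ a0 ∈ SW F par x 0, ∃ a1 ∈ SW F par x 1, a0 + a1 = a := by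
  rw [← Submodule.mem_sup]
  have h : a ∈ Submodule.span F (Set.range (wv x : FreeMagma (Fin N) → A')) := by
    rw [words_top x hadj]; trivial
  refine (Submodule.span_le.2 ?_) h
  rintro _ ⟨w, rfl⟩
  have h2 : ∀ q : ZMod 2, q = 0 ∨ q = 1 := by decide
  rcases h2 (wp par w) with h3 | h3
  · exact (le_sup_left : SW F par x 0 ≤ _) (Submodule.subset_span ⟨w, h3, rfl⟩)
  · exact (le_sup_right : SW F par x 1 ≤ _) (Submodule.subset_span ⟨w, h3, rfl⟩)

theorem mem_SW (hA : IsSuper F A) (par : Fin N → ZMod 2) (x : Fin N → A')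
    (hx : ∀ i, x i ∈ A (par i)) (hadj : NonUnitalAlgebra.adjoin F (Set.range x) = ⊤)
    (q : ZMod 2) (a : A') (ha : a ∈ A q) : a ∈ SW F par x q := by
  obtain ⟨a0, h0, a1, h1, rfl⟩ := SW_sup (F := F) par x hadj a
  have g0 := SW_le hA par x hx 0 h0
  have g1 := SW_le hA par x hx 1 h1
  have h2 : ∀ q : ZMod 2, q = 0 ∨ q = 1 := by decide
  rcases h2 q with rfl | rfl
  · have h3 : a1 ∈ A 0 := by
      have := Submodule.sub_mem _ ha g0
      rwa [add_sub_cancel_left] at this
    rw [homDisj hA h3 g1, add_zero]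
    exact h0
  · have h3 : a0 ∈ A 1 := by
      have := Submodule.sub_mem _ ha g1
      rwa [add_sub_cancel_right] at this
    rw [homDisj hA g0 h3, zero_add]
    exact h1

/-- the special elements of `G ⊗ C` -/
def WS {G : Type u} [Ring G] [Algebra F G] (e : ℕ → G) (par : Fin N → ZMod 2)
    {C : Type u} [NonUnitalNonAssocRing C] [Module F C] (y : Fin N → C) :
    Submodule F (G ⊗[F] C) :=
  Submodule.span F {t : G ⊗[F] C | ∃ w : FreeMagma (Fin N),
        ∃ g ∈ Gw F e 0 (wp par w), g ⊗ₜ[F] (wv y w) = t}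

theorem WS_map {e : ℕ → G} (par : Fin N → ZMod 2)
    {C D : Type u} [NonUnitalNonAssocRing C] [Module F C] [IsScalarTower F C C]
    [SMulCommClass F C C] [NonUnitalNonAssocRing D] [Module F D] [IsScalarTower F D D]
    [SMulCommClass F D D] (Φ : C →ₙₐ[F] D) (y : Fin N → C)
    (t : G ⊗[F] C) (ht : t ∈ WS e par y) : idT G Φ t ∈ WS e par (fun i => Φ (y i)) := by
  unfold WS at ht
  induction ht using Submodule.span_induction with
  | zero => rw [map_zero]; exact Submodule.zero_mem _
  | add p q _ _ h3 h4 => rw [map_add]; exact Submodule.add_mem _ h3 h4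
  | smul k p _ h => rw [map_smul]; exact Submodule.smul_mem _ _ h
  | mem y hy =>
    obtain ⟨w, g, hg, rfl⟩ := hy
    rw [idT_tmul, wv_map]
    exact Submodule.subset_span ⟨w, g, hg, rfl⟩

theorem pre {e : ℕ → G} (m : ℕ) (hA : IsSuper F A) (par : Fin N → ZMod 2) (x : Fin N → A')
    (hx : ∀ i, x i ∈ A (par i)) (hadj : NonUnitalAlgebra.adjoin F (Set.range x) = ⊤)
    (t : G ⊗[F] A') (ht : t ∈ EnvSp F e m A) :
    ∃ s ∈ WS e par (fun i => FreeNonUnitalNonAssocAlgebra.of F i : Fin N → PN F N),
      idT G (FreeNonUnitalNonAssocAlgebra.lift F x) s = t := by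
  have h1 : EnvSp F e m A ≤
      (WS e par (fun i => FreeNonUnitalNonAssocAlgebra.of F i : Fin N → PN F N)).map
        (lm (idT G (FreeNonUnitalNonAssocAlgebra.lift F x))) := by
    refine Submodule.span_le.2 ?_
    rintro _ ⟨p, g, hg, a, ha, rfl⟩
    have h2 := mem_SW hA par x hx hadj p a ha
    unfold SW at h2
    induction h2 using Submodule.span_induction with
    | zero => rw [TensorProduct.tmul_zero]; exact Submodule.zero_mem _
    | add p q h5 h6 h3 h4 =>
      rw [TensorProduct.tmul_add]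
      exact Submodule.add_mem _ (h3 (SW_le hA par x hx _ h5)) (h4 (SW_le hA par x hx _ h6))
    | smul k p h5 h =>
      rw [TensorProduct.tmul_smul]
      exact Submodule.smul_mem _ _ (h (SW_le hA par x hx _ h5))
    | mem y hy =>
      obtain ⟨w, rfl, rfl⟩ := hy
      refine ⟨g ⊗ₜ[F] wv (fun i => FreeNonUnitalNonAssocAlgebra.of F i : Fin N → PN F N) w,
        Submodule.subset_span ⟨w, g, Gw_mono hg, rfl⟩, ?_⟩
      show g ⊗ₜ[F] (FreeNonUnitalNonAssocAlgebra.lift F x
        (wv (fun i => FreeNonUnitalNonAssocAlgebra.of F i : Fin N → PN F N) w)) = _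
      rw [wv_map]
      simp only [FreeNonUnitalNonAssocAlgebra.lift_of_apply]
  obtain ⟨s, hs, hst⟩ := h1 ht
  exact ⟨s, hs, hst⟩

end

end SUPCaux

open SUPCaux in
theorem t_SUPC : S_SUPC.{u} := by
  intro F _ G _ _ e m A' _ _ _ _ A hA N par x hx hadj B _ _ _ _ hB f hf Y hY
  choose s hs hst using fun k => pre m hA par x hx hadj (Y (X F k)) (hY k)
  set Yh : Fr F →ₙₐ[F] G ⊗[F] (PN F N) := FreeNonUnitalNonAssocAlgebra.lift F s with hYh
  have hYX : ∀ k, Yh (X F k) = s k := fun k => FreeNonUnitalNonAssocAlgebra.lift_of_apply F s k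
  have hcomp : (idT G (FreeNonUnitalNonAssocAlgebra.lift F x)).comp Yh = Y := by
    apply FreeNonUnitalNonAssocAlgebra.hom_ext
    intro k
    show idT G (FreeNonUnitalNonAssocAlgebra.lift F x) (Yh (X F k)) = Y (X F k)
    rw [hYX, hst]
  have hYf : Y f = idT G (FreeNonUnitalNonAssocAlgebra.lift F x) (Yh f) := by
    rw [← hcomp]; rfl
  apply lT_zero
  intro l
  rw [hYf, lT_nat]
  apply hB
  intro ψ hψ
  rw [← lT_nat]
  have hZ := hf (fun i => ψ (FreeNonUnitalNonAssocAlgebra.of F i)) hψ ((idT G ψ).comp Yh) ?_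
  · have : idT G ψ (Yh f) = 0 := hZ
    rw [this, map_zero]
  · intro k
    show idT G ψ (Yh (X F k)) ∈ WS e par (fun i => ψ (FreeNonUnitalNonAssocAlgebra.of F i))
    rw [hYX]
    exact WS_map par ψ _ _ (hs k)

end Pool.Agent.R685.SJ
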