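import Pool.Agent.R685.SJ.Stm

/-!
SJ-WORD: the value of a word in `JR G`.
-/

set_option autoImplicit false
set_option linter.unusedSectionVars false

namespace Pool.Agent.R685.SJ

open Pool.Agent.H163R3 Pool.Agent.R685 TensorProduct

universe u

namespace WordAux

variable {F : Type u} [Field F] {G : Type u} [Ring G] [Algebra F G] {e : ℕ → G}

/-- homogeneous elements commute up to a sign -/
theorem comm_sign (he : IsGrassmann F e) (p q : ZMod 2) : ∃ ε : F,
    ∀ g ∈ Gw F e 0 p, ∀ h ∈ Gw F e 0 q, g * h = ε • (h * g) := by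
  have h2 : ∀ x : ZMod 2, x = 0 ∨ x = 1 := by decide
  rcases h2 p with rfl | rfl
  · exact ⟨1, fun g hg h _ => by rw [one_smul]; exact Gw0_central he hg h⟩
  · rcases h2 q with rfl | rfl
    · exact ⟨1, fun g _ h hh => by rw [one_smul]; exact (Gw0_central he hh g).symm⟩
    · exact ⟨-1, fun g hg h hh => by rw [neg_smul, one_smul]; exact Gw1_anti he hg hh⟩

theorem one_mem : (1 : G) ∈ Gw F e 0 0 :=
  Submodule.subset_span ⟨[], le_refl _, by simp, by simp [gw]⟩

end WordAux

open WordAux in
theorem t_WORD : S_WORD.{u} := by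
  intro F _ G _ _ e he N par y hy1 hy2 w
  induction w with
  | ih1 i =>
    refine ⟨hy1 i, fun j => if j = i then 1 else 0, fun j => ?_, fun c => ?_⟩
    · show (if j = i then (1 : G) else 0) ∈ Gw F e 0 (par i + par j)
      by_cases hj : j = i
      · subst hj
        rw [if_pos rfl, CharTwo.add_self_eq_zero]
        exact one_mem
      · rw [if_neg hj]
        exact Submodule.zero_mem _
    · show jv (y i) c = _
      rw [Finset.sum_eq_single i]
      · show _ = (if i = i then (1 : G) else 0) * _
        rw [if_pos rfl, one_mul]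
      · intro j _ hj
        show (if j = i then (1 : G) else 0) * _ = _
        rw [if_neg hj, zero_mul]
      · intro h
        exact absurd (Finset.mem_univ i) h
  | ih2 s t hs ht =>
    obtain ⟨hs1, βs, hs2, hs3⟩ := hs
    obtain ⟨ht1, βt, ht2, ht3⟩ := ht
    have hvs : ∀ c, jv (wv y s) c ∈ Gw F e 0 (wp par s) := by
      intro c
      rw [hs3 c]
      refine Submodule.sum_mem _ fun i _ => ?_
      have h := Gw_mul F e (hs2 i) (hy2 i c)
      rwa [add_assoc, CharTwo.add_self_eq_zero, add_zero] at h
    have hvt : ∀ c, jv (wv y t) c ∈ Gw F e 0 (wp par t) := by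
      intro c
      rw [ht3 c]
      refine Submodule.sum_mem _ fun i _ => ?_
      have h := Gw_mul F e (ht2 i) (hy2 i c)
      rwa [add_assoc, CharTwo.add_self_eq_zero, add_zero] at h
    have hw : wp par (s * t) = wp par s + wp par t := rfl
    have hv : wv y (s * t) = wv y s * wv y t := rfl
    choose ε hε using fun i => comm_sign (F := F) he (par i) (wp par t)
    refine ⟨?_, fun i => js (wv y s) * βt i + ε i • (βs i * js (wv y t)), fun i => ?_,
      fun c => ?_⟩
    · rw [hw, hv, JR_mul, js_jp]
      refine Submodule.add_mem _ (Gw_mul F e hs1 ht1) ?_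
      unfold ff
      exact Submodule.sum_mem _ fun c _ => Gw_mul F e (hvs c) (hvt c)
    · rw [hw]
      refine Submodule.add_mem _ ?_ (Submodule.smul_mem _ _ ?_)
      · have h := Gw_mul F e hs1 (ht2 i)
        rwa [← add_assoc] at h
      · have h := Gw_mul F e (hs2 i) ht1
        rwa [add_right_comm] at h
    · rw [hv, JR_mul, jv_jp]
      simp only [Finsupp.add_apply, Finsupp.smul_apply, smul_eq_mul, rs_apply]
      rw [hs3 c, ht3 c, Finset.mul_sum, Finset.sum_mul, ← Finset.sum_add_distrib]
      refine Finset.sum_congr rfl fun i _ => ?_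
      have h1 : βs i * (jv (y i)) c * js (wv y t) =
          ε i • (βs i * js (wv y t)) * (jv (y i)) c := by
        rw [mul_assoc (βs i), hε i _ (hy2 i c) _ ht1, smul_mul_assoc, mul_smul_comm,
          mul_assoc (βs i)]
      rw [add_mul, h1, mul_assoc (js (wv y s))]

end Pool.Agent.R685.SJ
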